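import Pool.Agent.MP_a4a062_nt.Z60.Defs

/-! h60z row AVG. -/

set_option autoImplicit false

open Finset Filter
open scoped Classical BigOperators

noncomputable section
namespace Pool.Agent.Z60

theorem avg_pos {l : ℕ} {B : Fin l → Finset ℕ} (hB : Pr B) {Q : Fin l → ℕ} (hQ : Q ∈ tup B) :
    0 < ∏ j, Q j := prod_pos fun j _ => (hB.2.1 j _ (Fintype.mem_piFinset.1 hQ j)).pos

theorem avg_abs {F : ℕ → ℝ} (hF : ∀ u, |F u| ≤ 1) (X d : ℕ) : |∑ u ∈ range d, F (X + u)| ≤ d := by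
  refine (abs_sum_le_sum_abs _ _).trans ((sum_le_sum fun u _ => hF _).trans ?_)
  simp

theorem avg_shift {F : ℕ → ℝ} (hF : ∀ u, |F u| ≤ 1) (X d : ℕ) :
    ∑ u ∈ range X, F u ≤ ∑ x ∈ range X, F (x + d) + 2 * d := by
  have h1 := Finset.sum_range_add F X d
  have h2 := Finset.sum_range_add F d X
  rw [add_comm d X, h1] at h2
  have h3 := abs_le.1 (avg_abs hF X d)
  have h4 := abs_le.1 (avg_abs hF 0 d)
  simp only [zero_add] at h4
  simp only [add_comm d] at h2
  linarith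

theorem avg_mul {a : ℕ} (ha : 0 < a) (N : ℕ) (F : ℕ → ℝ) :
    ∑ n ∈ range N, F (a * n) = ∑ u ∈ range (a * N), if a ∣ u then F u else 0 := by
  rw [← Finset.sum_filter]
  refine Finset.sum_bij (fun n _ => a * n) ?_ ?_ ?_ fun _ _ => rfl
  · intro n hn
    exact mem_filter.2 ⟨mem_range.2 (Nat.mul_lt_mul_of_pos_left (mem_range.1 hn) ha),
      dvd_mul_right _ _⟩
  · intro n _ n' _ h
    exact Nat.eq_of_mul_eq_mul_left ha h
  · intro u hu
    obtain ⟨h1, n, rfl⟩ := mem_filter.1 hu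
    exact ⟨n, mem_range.2 (Nat.lt_of_mul_lt_mul_left (mem_range.1 h1)), rfl⟩

theorem avg_row (hL : LOC_s) : AVG_s := by
  intro ι _ K l m R N H Z S h₀ B h ψ σ A θ η hK hB hh hZ hdv hH hN hS hθ hη hσ hI hψ hper htyp hA
  obtain ⟨e, he0, he1, he2⟩ := hI
  have hT : (tup B).Nonempty := Fintype.piFinset_nonempty.2 hB.1
  have hT1 : (1 : ℝ) ≤ #(tup B) := by exact_mod_cast hT.card_pos
  have hH0 : 0 < H := by omega
  have hH1 : (0 : ℝ) < H := by exact_mod_cast hH0
  have hN1 : (1 : ℝ) ≤ N := by exact_mod_cast hN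
  have hS' : (range S).Nonempty := nonempty_range_iff.2 hS.ne'
  have haZ : ∀ Q ∈ tup B, ∏ j, Q j ≤ Z := fun Q hQ => Nat.le_of_dvd hZ (hdv Q hQ)
  have hσ1 : ∀ u, |σ u| ≤ 1 := fun u => by rcases hσ u with h | h <;> simp [h]
  set G : ℕ := Z * (h₀ + ∑ i, h i) with hG
  let φ : ℕ → (Fin l → ℕ) → ℕ → ℝ := fun x Q t =>
    if x < (∏ j, Q j) * N ∧ ∏ j, Q j ∣ x + t then ψ Q (x + t) else 0
  let Y : ℕ → ℕ → (Fin l → ℕ) → ℕ → ℝ := fun x s Q t =>
    φ x Q t * σ (x + Z * s + (t + (∏ j, Q j) * h₀)) *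
      ∏ i, A i (x + Z * s + (t + (∏ j, Q j) * h i))
  set c₁ : ℝ := ((K : ℝ) + 1) / 2 ^ R + θ ^ 2 with hc₁
  set Ex : ℝ := Real.exp (θ * (#(tup B) * H)) with hEx
  set r : ℝ := 2 ^ ((K + 1) * m) with hr
  have hc0 : 0 ≤ c₁ := by positivity
  have hEx0 : 0 < Ex := Real.exp_pos _
  have hr0 : 0 < r := by positivity
  have loc : ∀ x, θ * 𝔼 s ∈ range S, ∑ Q ∈ tup B, ∑ t ∈ range H, Y x s Q t ≤
      c₁ * (∑ Q ∈ tup B with x ≤ 2 * ((∏ j, Q j) * N), 2 * (H : ℝ) / ((∏ j, Q j : ℕ) : ℝ)) +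
        r * (1 + e x * Ex) := fun x => by
    refine hL ι K l m R N x H G h₀ B h (range S) (φ x) (fun s w => σ (x + Z * s + w))
      (fun s i w => A i (x + Z * s + w)) θ (e x) hK hB hh ?_ hS' hθ (he0 x) ?_ ?_
      (fun s w => hσ _) (fun s i w => hA _ _) ?_
    · intro Q hQ
      refine ⟨by have := haZ Q hQ; omega, Nat.mul_le_mul (haZ Q hQ) (Nat.le_add_right _ _),
        fun i => Nat.mul_le_mul (haZ Q hQ) ?_⟩
      exact (single_le_sum (f := h) (fun _ _ => Nat.zero_le _) (mem_univ i)).trans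
        (Nat.le_add_left _ _)
    · intro Q t
      simp only [φ]
      split_ifs
      · exact hψ _ _
      · simp
    · intro Q hQ t ht
      simp only [φ] at ht
      split_ifs at ht with hc
      · exact ⟨hc.2, hc.1.le, htyp Q hQ _ ht⟩
      · exact absurd rfl ht
    · intro W hW hW'
      exact he2 x W (hW.trans (range_mono (by omega))) hW'
  have one : ∀ Q ∈ tup B, ∀ s ∈ range S, ∀ t ∈ range H,
      ∑ n ∈ range N, ψ Q ((∏ j, Q j) * n) * σ ((∏ j, Q j) * n + (∏ j, Q j) * h₀) *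
        ∏ i, A i ((∏ j, Q j) * n + (∏ j, Q j) * h i) ≤
      ∑ x ∈ range (Z * N), Y x s Q t + 2 * ((Z : ℝ) * S + H) := fun Q hQ s hs t ht => by
    let F : ℕ → ℝ := fun u => ψ Q u * σ (u + (∏ j, Q j) * h₀) * ∏ i, A i (u + (∏ j, Q j) * h i)
    have hF : ∀ u, |(if ∏ j, Q j ∣ u then F u else 0)| ≤ 1 := fun u => by
      split_ifs
      · simp only [F]
        rw [abs_mul, abs_mul, abs_prod]
        exact mul_le_one₀ (mul_le_one₀ (hψ _ _) (abs_nonneg _) (hσ1 _))
          (prod_nonneg fun _ _ => abs_nonneg _)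
          (prod_le_one (fun _ _ => abs_nonneg _) fun _ _ => hA _ _)
      · simp
    have h1 := avg_mul (avg_pos hB hQ) N F
    have h2 := avg_shift hF ((∏ j, Q j) * N) (Z * s + t)
    have h3 : ∑ x ∈ range ((∏ j, Q j) * N),
        (if ∏ j, Q j ∣ x + (Z * s + t) then F (x + (Z * s + t)) else 0) =
        ∑ x ∈ range (Z * N), Y x s Q t := by
      have hsub : range ((∏ j, Q j) * N) ⊆ range (Z * N) :=
        range_mono (Nat.mul_le_mul_right _ (haZ Q hQ))
      rw [← Finset.sum_subset hsub (f := fun x => Y x s Q t) fun x _ hx => ?_]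
      · refine sum_congr rfl fun x hx => ?_
        have hd : (∏ j, Q j ∣ x + (Z * s + t)) ↔ ∏ j, Q j ∣ x + t := by
          rw [show x + (Z * s + t) = x + t + Z * s by ring]
          exact (Nat.dvd_add_iff_left ((hdv Q hQ).mul_right s)).symm
        simp only [Y, φ, F]
        by_cases hc : ∏ j, Q j ∣ x + t
        · rw [if_pos (hd.2 hc), if_pos ⟨mem_range.1 hx, hc⟩, ← hper Q hQ (x + t) s]
          simp only [add_assoc, add_comm t (Z * s)]
        · rw [if_neg (fun h => hc (hd.1 h)), if_neg (fun h => hc h.2)]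
          simp
      · simp only [Y, φ]
        rw [if_neg (fun h => hx (mem_range.2 h.1))]
        simp
    have h4 : ((Z * s + t : ℕ) : ℝ) ≤ (Z : ℝ) * S + H := by
      exact_mod_cast Nat.add_le_add (Nat.mul_le_mul_left Z (mem_range.1 hs).le) (mem_range.1 ht).le
    rw [h3, ← h1] at h2
    exact h2.trans (by linarith)
  have two : (H : ℝ) * ∑ Q ∈ tup B, ∑ n ∈ range N, ψ Q ((∏ j, Q j) * n) *
      σ ((∏ j, Q j) * n + (∏ j, Q j) * h₀) * ∏ i, A i ((∏ j, Q j) * n + (∏ j, Q j) * h i) ≤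
      ∑ x ∈ range (Z * N), (𝔼 s ∈ range S, ∑ Q ∈ tup B, ∑ t ∈ range H, Y x s Q t) +
        #(tup B) * (H * (2 * ((Z : ℝ) * S + H))) := by
    rw [← Finset.expect_sum_comm, ← Finset.expect_const hS'
      (#(tup B) * (H * (2 * ((Z : ℝ) * S + H)))), ← Finset.expect_add_distrib]
    refine Finset.le_expect hS' fun s hs => ?_
    rw [Finset.sum_comm (s := range (Z * N)), Finset.mul_sum, ← nsmul_eq_mul #(tup B),
      ← Finset.sum_const, ← Finset.sum_add_distrib]
    refine sum_le_sum fun Q hQ => ?_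
    rw [Finset.sum_comm (s := range (Z * N))]
    have := sum_le_sum fun t ht => one Q hQ s hs t ht
    rw [Finset.sum_add_distrib] at this
    simpa only [Finset.sum_const, card_range, nsmul_eq_mul] using this
  have three : ∑ x ∈ range (Z * N), ∑ Q ∈ tup B with x ≤ 2 * ((∏ j, Q j) * N),
      2 * (H : ℝ) / ((∏ j, Q j : ℕ) : ℝ) ≤ #(tup B) * (6 * N * H) := by
    simp only [Finset.sum_filter]
    rw [Finset.sum_comm, ← nsmul_eq_mul, ← Finset.sum_const]
    refine sum_le_sum fun Q hQ => ?_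
    have ha : (1 : ℝ) ≤ ((∏ j, Q j : ℕ) : ℝ) := by exact_mod_cast avg_pos hB hQ
    rw [← Finset.sum_filter, Finset.sum_const, nsmul_eq_mul]
    have h1 : #{x ∈ range (Z * N) | x ≤ 2 * ((∏ j, Q j) * N)} ≤ 2 * ((∏ j, Q j) * N) + 1 := by
      refine (card_le_card fun x hx => ?_).trans (card_range _).le
      exact mem_range.2 (Nat.lt_succ_of_le (mem_filter.1 hx).2)
    generalize ∏ j, Q j = a at ha h1
    have h2 : (#{x ∈ range (Z * N) | x ≤ 2 * (a * N)} : ℝ) ≤ 2 * (a * N) + 1 := by exact_mod_cast h1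
    have h3 : (1 : ℝ) ≤ a * N := one_le_mul_of_one_le_of_one_le ha hN1
    calc (#{x ∈ range (Z * N) | x ≤ 2 * (a * N)} : ℝ) * (2 * H / a) ≤ 3 * (a * N) * (2 * H / a) :=
          mul_le_mul_of_nonneg_right (by linarith) (by positivity)
      _ = 6 * N * H := by field_simp; ring
  have four : θ * ∑ x ∈ range (Z * N),
      (𝔼 s ∈ range S, ∑ Q ∈ tup B, ∑ t ∈ range H, Y x s Q t) ≤
      c₁ * (#(tup B) * (6 * N * H)) + r * Z * N * (1 + η * Ex) := by
    rw [Finset.mul_sum]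
    refine (sum_le_sum fun x _ => loc x).trans ?_
    rw [Finset.sum_add_distrib, ← Finset.mul_sum, ← Finset.mul_sum, Finset.sum_add_distrib,
      ← Finset.sum_mul, Finset.sum_const, card_range, nsmul_eq_mul, mul_one]
    have h1 := mul_le_mul_of_nonneg_left three hc0
    have h2 := mul_le_mul_of_nonneg_left (mul_le_mul_of_nonneg_right
      (he1 (Z * N) (Nat.le_mul_of_pos_left _ hZ)) hEx0.le) hr0.le
    rw [Nat.cast_mul Z N] at h2 ⊢
    linarith
  rw [Finset.expect_eq_sum_div_card, ← mul_div_assoc, div_le_iff₀ (by linarith)]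
  refine le_of_mul_le_mul_left ?_ hH1
  have five := mul_le_mul_of_nonneg_left two hθ.le
  have h6 : r * Z * N * (1 + η * Ex) * 1 ≤ r * Z * N * (1 + η * Ex) * #(tup B) :=
    mul_le_mul_of_nonneg_left hT1 (by positivity)
  have h7 : (H : ℝ) * ((θ * (2 * ((Z : ℝ) * S + H)) + 6 * N * c₁ +
      r * Z * N * (1 + η * Ex) / H) * #(tup B)) = θ * (#(tup B) * (H * (2 * ((Z : ℝ) * S + H)))) +
      c₁ * (#(tup B) * (6 * N * H)) + r * Z * N * (1 + η * Ex) * #(tup B) := by
    field_simp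
  rw [h7, mul_left_comm]
  linarith

end Pool.Agent.Z60

end
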