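import Pool.Agent.MP_a4a062_nt.Z60.Defs

/-! h60z row BAD. -/

set_option autoImplicit false

open Finset Filter
open scoped Classical BigOperators

noncomputable section
namespace Pool.Agent.Z60

theorem bad_row (hC : CNT_s) : BAD_s := by
  intro l B κ δ N c hB hN Q hQ
  have h := Fintype.mem_piFinset.1 hQ
  have cnt : ∀ d : ℕ, 0 < d → (#{n ∈ range N | d ∣ n + c} : ℝ) ≤ N * (1 / (d : ℝ)) + 1 :=
    fun d hd => by
      have := (abs_le.1 (hC N c d hd)).2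
      rw [mul_one_div]
      linarith
  have sub : {n ∈ range N | ¬ ((∀ j, ¬ Q j ∣ n + c) ∧ ∀ j, #{p ∈ B j | p ∣ n + c} ≤ 1)} ⊆
      univ.biUnion fun j => {n ∈ range N | Q j ∣ n + c} ∪
        (B j).offDiag.biUnion fun z => {n ∈ range N | z.1 * z.2 ∣ n + c} := fun n hn => by
    obtain ⟨hn, hc⟩ := mem_filter.1 hn
    have : ∃ i, Q i ∣ n + c ∨ 1 < #{p ∈ B i | p ∣ n + c} := by
      by_contra hh
      push Not at hh
      exact hc ⟨fun i => (hh i).1, fun i => (hh i).2⟩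
    obtain ⟨i, hi⟩ := this
    refine mem_biUnion.2 ⟨i, mem_univ i, mem_union.2 ?_⟩
    rcases hi with hi | hi
    · exact Or.inl (mem_filter.2 ⟨hn, hi⟩)
    · obtain ⟨a, ha, b, hb, ab⟩ := one_lt_card.1 hi
      rw [mem_filter] at ha hb
      refine Or.inr (mem_biUnion.2 ⟨(a, b), mem_offDiag.2 ⟨ha.1, hb.1, ab⟩, mem_filter.2 ⟨hn, ?_⟩⟩)
      exact ((Nat.coprime_primes (hB.2.1 i _ ha.1) (hB.2.1 i _ hb.1)).2 ab).mul_dvd_of_dvd_of_dvd
        ha.2 hb.2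
  have hW : (#(prI B) : ℝ) = ∑ j, (#(B j) : ℝ) := by
    rw [prI, card_biUnion fun i _ j _ ij => disjoint_left.2 fun p a b => ij (hB.2.2 i j p a b)]
    push_cast
    rfl
  have one : ∀ j, (#({n ∈ range N | Q j ∣ n + c} ∪
      (B j).offDiag.biUnion fun z => {n ∈ range N | z.1 * z.2 ∣ n + c}) : ℝ) ≤
      N * (1 / (Q j : ℝ)) + N * (∑ p ∈ B j, 1 / (p : ℝ)) ^ 2 + (#(B j) : ℝ) ^ 2 := fun j => by
    have a1 := cnt (Q j) (hB.2.1 j _ (h j)).pos
    have a2 : (#((B j).offDiag.biUnion fun z => {n ∈ range N | z.1 * z.2 ∣ n + c}) : ℝ) ≤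
        ∑ z ∈ (B j).offDiag, ((N : ℝ) * (1 / (z.1 : ℝ) * (1 / (z.2 : ℝ))) + 1) := by
      refine le_trans (Nat.cast_le.2 card_biUnion_le) ?_
      push_cast
      refine sum_le_sum fun z hz => ?_
      obtain ⟨x, y, -⟩ := mem_offDiag.1 hz
      have := cnt (z.1 * z.2) (Nat.mul_pos (hB.2.1 j _ x).pos (hB.2.1 j _ y).pos)
      rwa [Nat.cast_mul, ← one_div_mul_one_div] at this
    rw [sum_add_distrib, ← mul_sum, sum_const, nsmul_eq_mul, mul_one] at a2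
    have a3 : ∑ z ∈ (B j).offDiag, 1 / (z.1 : ℝ) * (1 / (z.2 : ℝ)) ≤
        (∑ p ∈ B j, 1 / (p : ℝ)) ^ 2 := by
      rw [sq, sum_mul_sum, ← sum_product']
      exact sum_le_sum_of_subset_of_nonneg
        (fun z hz => mem_product.2 ⟨(mem_offDiag.1 hz).1, (mem_offDiag.1 hz).2.1⟩)
        fun _ _ _ => by positivity
    have a4 : (#(B j).offDiag : ℝ) + 1 ≤ (#(B j) : ℝ) ^ 2 := by
      have p1 := card_pos.2 (hB.1 j)
      have p2 := Nat.le_mul_self #(B j)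
      have : #(B j).offDiag + 1 ≤ #(B j) ^ 2 := by rw [offDiag_card, sq]; omega
      exact_mod_cast this
    have a5 := mul_le_mul_of_nonneg_left a3 (Nat.cast_nonneg N : (0 : ℝ) ≤ N)
    have a6 := (Nat.cast_le (α := ℝ)).2 (card_union_le {n ∈ range N | Q j ∣ n + c}
      ((B j).offDiag.biUnion fun z => {n ∈ range N | z.1 * z.2 ∣ n + c}))
    push_cast at a6
    linarith
  have b1 := (Nat.cast_le (α := ℝ)).2 ((card_le_card sub).trans card_biUnion_le)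
  rw [Nat.cast_sum] at b1
  have b2 := b1.trans (sum_le_sum fun j _ => one j)
  rw [sum_add_distrib, sum_add_distrib, ← mul_sum, ← mul_sum] at b2
  have b3 : ∑ j, (#(B j) : ℝ) ^ 2 ≤ (#(prI B) : ℝ) ^ 2 := by
    rw [hW]
    exact sum_sq_le_sq_sum_of_nonneg fun _ _ => Nat.cast_nonneg _
  have b4 := mul_le_mul_of_nonneg_left hN.2.1 (Nat.cast_nonneg N : (0 : ℝ) ≤ N)
  have b5 := mul_le_mul_of_nonneg_left (hN.2.2 Q hQ) (Nat.cast_nonneg N : (0 : ℝ) ≤ N)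
  have b6 := sq_nonneg (#(prI B) : ℝ)
  linarith

end Pool.Agent.Z60

end
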