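import Pool.Agent.MP_a4a062_nt.Z60.Defs

/-! h60z row BLK. -/

set_option autoImplicit false

open Finset Filter
open scoped Classical BigOperators

noncomputable section
namespace Pool.Agent.Z60

lemma blk_set (L : ℝ) (hL : 0 ≤ L) (y : ℕ) : ∃ S : Finset ℕ, (∀ p ∈ S, p.Prime ∧ y ≤ p) ∧
    L ≤ ∑ p ∈ S, 1 / (p : ℝ) ∧ ∑ p ∈ S, 1 / (p : ℝ) ≤ L + 1 := by
  set g : ℕ → ℝ := fun n => if n.Prime ∧ y ≤ n then 1 / (n : ℝ) else 0 with hg
  have g0 : ∀ n, 0 ≤ g n := fun n => by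
    simp only [hg]
    split_ifs
    · positivity
    · exact le_rfl
  have g1 : ∀ n, g n ≤ 1 := fun n => by
    simp only [hg]
    split_ifs with h
    · exact (div_le_one (by exact_mod_cast h.1.pos)).2 (by exact_mod_cast h.1.one_le)
    · exact zero_le_one
  have ns : ¬ Summable g := fun h => by
    refine not_summable_one_div_on_primes ((summable_nat_add_iff y).1 ?_)
    refine ((summable_nat_add_iff y).2 h).congr fun n => ?_
    by_cases hp : (n + y).Prime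
    · simp [hg, hp]
    · simp [hg, hp]
  have ex : ∃ Y, L ≤ ∑ n ∈ range Y, g n :=
    (((not_summable_iff_tendsto_nat_atTop_of_nonneg g0).1 ns).eventually_ge_atTop L).exists
  have e : ∀ Y, ∑ p ∈ range Y with p.Prime ∧ y ≤ p, 1 / (p : ℝ) = ∑ n ∈ range Y, g n :=
    fun Y => sum_filter _ _
  refine ⟨(range (Nat.find ex)).filter fun p => p.Prime ∧ y ≤ p, fun p hp => (mem_filter.1 hp).2,
    ?_, ?_⟩
  · rw [e]
    exact Nat.find_spec ex
  · rw [e]
    rcases h : Nat.find ex with _ | Y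
    · rw [range_zero, sum_empty]
      linarith only [hL]
    · have h1 := Nat.find_min ex (show Y < Nat.find ex by omega)
      rw [sum_range_succ]
      linarith only [not_le.1 h1, g1 Y]

lemma blk_pow {r : ℝ} (hr : 1 < r) : ∃ b : ℕ → ℕ, ∀ p : ℕ, 1 ≤ p →
    r ^ b p ≤ p ∧ (p : ℝ) < r ^ (b p + 1) := by
  have h : ∀ p : ℕ, ∃ n : ℕ, 1 ≤ p → r ^ n ≤ p ∧ (p : ℝ) < r ^ (n + 1) := fun p => by
    by_cases hp : 1 ≤ p
    · obtain ⟨n, hn⟩ := exists_nat_pow_near (x := (p : ℝ)) (by exact_mod_cast hp) hr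
      exact ⟨n, fun _ => hn⟩
    · exact ⟨0, fun h => absurd h hp⟩
  choose b hb using h
  exact ⟨b, hb⟩

lemma blk_ell {k : ℝ} (hk : 0 ≤ k) {y : ℕ} (hy : 1 ≤ y) (A : Finset ℕ) (hA : ∀ p ∈ A, y ≤ p)
    (h : ∀ p ∈ A, ∀ q ∈ A, (p : ℝ) ≤ (1 + k) * q) : ∑ p ∈ A, 1 / (p : ℝ) ≤ k + 1 / y := by
  rcases A.eq_empty_or_nonempty with rfl | hne
  · rw [sum_empty]
    positivity
  obtain ⟨m, hm, hmin⟩ := exists_min_image A id hne
  have y0 : (0 : ℝ) < y := by exact_mod_cast hy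
  have ym : (y : ℝ) ≤ m := by exact_mod_cast hA m hm
  have m0 : (0 : ℝ) < m := y0.trans_le ym
  have sub : A ⊆ Icc m (m + ⌊k * m⌋₊) := fun p hp => by
    have h1 : m ≤ p := hmin p hp
    refine mem_Icc.2 ⟨h1, ?_⟩
    obtain ⟨d, rfl⟩ := Nat.exists_eq_add_of_le h1
    have h2 := h _ hp m hm
    push_cast at h2
    exact Nat.add_le_add_left (Nat.le_floor (by linarith only [h2])) _
  have c1 : (#A : ℝ) ≤ k * m + 1 := by
    have h1 := card_le_card sub
    rw [Nat.card_Icc, show m + ⌊k * m⌋₊ + 1 - m = ⌊k * m⌋₊ + 1 by omega] at h1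
    have h2 : (#A : ℝ) ≤ ⌊k * m⌋₊ + 1 := by exact_mod_cast h1
    linarith only [h2, Nat.floor_le (show 0 ≤ k * m by positivity)]
  have s1 := sum_le_card_nsmul A (fun p : ℕ => 1 / (p : ℝ)) (1 / (m : ℝ)) fun p hp =>
    one_div_le_one_div_of_le m0 (by exact_mod_cast (show m ≤ p from hmin p hp))
  rw [nsmul_eq_mul] at s1
  have s2 := mul_le_mul_of_nonneg_right c1 (show (0 : ℝ) ≤ 1 / m by positivity)
  have s3 : (k * m + 1) * (1 / (m : ℝ)) = k + 1 / m := by field_simp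
  linarith only [s1, s2, s3, one_div_le_one_div_of_le y0 ym]

theorem blk_row : BLK_s := by
  intro L κ δ hL hκ hδ
  have d0 : 0 < δ / (2 * (L + 1)) := by positivity
  obtain ⟨k, k0, k1, k2⟩ : ∃ k : ℝ, 0 < k ∧ k ≤ κ ∧ k ≤ δ / (2 * (L + 1)) :=
    ⟨min κ _, lt_min hκ d0, min_le_left _ _, min_le_right _ _⟩
  have r1 : 1 < 1 + k := by linarith only [k0]
  have r0 : 0 < 1 + k := by linarith only [k0]
  obtain ⟨b, hb⟩ := blk_pow r1
  have x0 : 0 < (1 + k)⁻¹ := inv_pos.2 r0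
  have x1 : (1 + k)⁻¹ < 1 := inv_lt_one_of_one_lt₀ r1
  obtain ⟨b0, hb0⟩ := exists_pow_lt_of_lt_one
    (show 0 < δ * (1 - (1 + k)⁻¹) from mul_pos hδ (sub_pos.2 x1)) x1
  obtain ⟨y, hy⟩ := exists_nat_ge (max ((1 + k) ^ b0) (2 * (L + 1) / δ))
  have y1 := (le_max_left _ _).trans hy
  have y2 := (le_max_right _ _).trans hy
  have y3 : 1 ≤ y := by exact_mod_cast (one_le_pow₀ r1.le).trans y1
  have y4 : 1 / (y : ℝ) ≤ δ / (2 * (L + 1)) := by
    rw [← one_div_div (2 * (L + 1)) δ]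
    exact one_div_le_one_div_of_le (by positivity) y2
  obtain ⟨S, hS, s1, s2⟩ := blk_set L hL y
  set I := S.image b with hI
  set e : Fin #I → ℕ := fun j => (I.equivFin.symm j : ℕ) with he
  have eI : ∀ j, e j ∈ I := fun j => (I.equivFin.symm j).2
  have ei : Function.Injective e := Subtype.val_injective.comp I.equivFin.symm.injective
  have es : ∀ f : ℕ → ℝ, ∑ j, f (e j) = ∑ i ∈ I, f i := fun f => by
    rw [← sum_coe_sort I f]
    exact I.equivFin.symm.sum_comp fun i : I => f i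
  have lam : Lam (fun j => S.filter fun p => b p = e j) = ∑ p ∈ S, 1 / (p : ℝ) := by
    rw [Lam, es fun i => ∑ p ∈ S with b p = i, 1 / (p : ℝ)]
    exact sum_fiberwise_of_maps_to (fun p hp => mem_image_of_mem b hp) _
  have nar : ∀ i, ∀ p ∈ S.filter fun p => b p = i, ∀ q ∈ S.filter fun p => b p = i,
      (p : ℝ) ≤ (1 + k) * q := fun i p hp q hq => by
    obtain ⟨hp, ep⟩ := mem_filter.1 hp
    obtain ⟨hq, eq⟩ := mem_filter.1 hq
    have h1 := (hb p (hS p hp).1.one_le).2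
    have h2 := (hb q (hS q hq).1.one_le).1
    rw [ep, pow_succ'] at h1
    rw [eq] at h2
    exact h1.le.trans (mul_le_mul_of_nonneg_left h2 r0.le)
  refine ⟨#I, fun j => S.filter fun p => b p = e j, ⟨fun j => ?_, fun j p hp => ?_,
    fun i j p hi hj => ?_⟩, ⟨fun j p hp q hq => ?_, ?_, fun Q hQ => ?_⟩, lam ▸ s1, lam ▸ s2⟩
  · obtain ⟨p, hp, ep⟩ := mem_image.1 (eI j)
    exact ⟨p, mem_filter.2 ⟨hp, ep⟩⟩
  · exact (hS p (mem_filter.1 hp).1).1
  · exact ei ((mem_filter.1 hi).2.symm.trans (mem_filter.1 hj).2)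
  · exact (nar _ p hp q hq).trans
      (mul_le_mul_of_nonneg_right (by linarith only [k1]) (Nat.cast_nonneg _))
  · have h1 : ∀ j, (∑ p ∈ S with b p = e j, 1 / (p : ℝ)) ^ 2 ≤
        δ / (L + 1) * ∑ p ∈ S with b p = e j, 1 / (p : ℝ) := fun j => by
      rw [sq]
      refine mul_le_mul_of_nonneg_right ?_ (sum_nonneg fun _ _ => by positivity)
      refine (blk_ell k0.le y3 _ (fun p hp => (hS p (mem_filter.1 hp).1).2) (nar _)).trans ?_
      have : δ / (L + 1) = 2 * (δ / (2 * (L + 1))) := by field_simp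
      linarith only [this, k2, y4]
    refine (sum_le_sum fun j _ => h1 j).trans ?_
    rw [← mul_sum]
    rw [Lam] at lam
    rw [lam]
    refine (mul_le_mul_of_nonneg_left s2 (by positivity)).trans_eq ?_
    field_simp
  · have h1 : ∀ j, 1 / (Q j : ℝ) ≤ (1 + k)⁻¹ ^ e j := fun j => by
      obtain ⟨hp, ep⟩ := mem_filter.1 (Fintype.mem_piFinset.1 hQ j)
      have h2 := (hb _ (hS _ hp).1.one_le).1
      rw [ep] at h2
      rw [inv_pow, ← one_div]
      exact one_div_le_one_div_of_le (pow_pos r0 _) h2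
    have sub : I ⊆ Ico b0 (I.sup id + 1) := fun i hi => by
      refine mem_Ico.2 ⟨?_, Nat.lt_succ_of_le (le_sup (f := id) hi)⟩
      obtain ⟨p, hp, rfl⟩ := mem_image.1 hi
      have h2 := (hb _ (hS _ hp).1.one_le).2
      have h3 : (y : ℝ) ≤ p := by exact_mod_cast (hS _ hp).2
      exact Nat.lt_succ_iff.1 ((pow_lt_pow_iff_right₀ r1).1 ((y1.trans h3).trans_lt h2))
    refine (sum_le_sum fun j _ => h1 j).trans ?_
    rw [es fun i => (1 + k)⁻¹ ^ i]
    refine (sum_le_sum_of_subset_of_nonneg sub fun _ _ _ => by positivity).trans ?_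
    refine (geom_sum_Ico_le_of_lt_one x0.le x1).trans ?_
    rw [div_le_iff₀ (sub_pos.2 x1)]
    exact hb0.le

end Pool.Agent.Z60

end
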