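import Pool.Agent.MP_a4a062_nt.Z60.Defs

/-! h60z rows CNT, DEC. -/

set_option autoImplicit false

open Finset Filter
open scoped Classical BigOperators

noncomputable section
namespace Pool.Agent.Z60

theorem cnt_row : CNT_s := by
  intro N c d hd
  have hd' : (0 : ℝ) < d := by exact_mod_cast hd
  have e1 : ({n ∈ range N | d ∣ n + c} : Finset ℕ) = {n ∈ range N | n ≡ (d - 1) * c [MOD d]} := by
    refine filter_congr fun n _ => ?_
    have h0 : (d - 1) * c + c ≡ 0 [MOD d] := by
      rw [← Nat.succ_mul, Nat.succ_eq_add_one, Nat.sub_add_cancel hd]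
      exact (Nat.modEq_zero_iff_dvd).2 (dvd_mul_right _ _)
    rw [← Nat.modEq_zero_iff_dvd]
    exact ⟨fun h => Nat.ModEq.add_right_cancel' c (h.trans h0.symm),
      fun h => (h.add_right c).trans h0⟩
  have e2 := Nat.count_modEq_card N hd ((d - 1) * c)
  rw [Nat.count_eq_card_filter_range] at e2
  have e3 : #{n ∈ range N | d ∣ n + c} = N / d + if (d - 1) * c % d < N % d then 1 else 0 := by
    rw [e1, ← e2]
  have h1 : ((N / d : ℕ) : ℝ) ≤ N / d := Nat.cast_div_le
  have h2 : (N : ℝ) / d < (N / d : ℕ) + 1 := by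
    rw [div_lt_iff₀ hd']
    have := Nat.lt_mul_div_succ N hd
    rw [mul_comm] at this
    exact_mod_cast this
  rw [e3, abs_le]
  split_ifs <;> push_cast <;> constructor <;> linarith

theorem dec_row : DEC_s := by
  intro l B hB
  have hpr : ∀ p ∈ prI B, p.Prime := fun p hp => by
    obtain ⟨j, -, hj⟩ := mem_biUnion.1 hp
    exact hB.2.1 j p hj
  refine ⟨fun v => ∏ p ∈ v.primeFactors with p ∉ prI B, p ^ v.factorization p, fun v => ?_, ?_⟩
  · exact prod_ne_zero_iff.2 fun p hp =>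
      pow_ne_zero _ (Nat.prime_of_mem_primeFactors (mem_filter.1 hp).1).ne_zero
  intro Q hQ f hf hsq
  have hQj : ∀ j, Q j ∈ prI B := fun j =>
    mem_biUnion.2 ⟨j, mem_univ _, Fintype.mem_piFinset.1 hQ j⟩
  have ha : ∏ j, Q j ≠ 0 := prod_ne_zero_iff.2 fun j _ => (hpr _ (hQj j)).ne_zero
  have hna : ∀ p : ℕ, p.Prime → p ∉ prI B → ¬ p ∣ ∏ j, Q j := fun p hp hp' hd => by
    obtain ⟨j, -, hj⟩ := (Prime.dvd_finsetProd_iff hp.prime _).1 hd
    exact hp' ((Nat.prime_dvd_prime_iff_eq hp (hpr _ (hQj j))).1 hj ▸ hQj j)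
  have e1 : ∏ p ∈ ((∏ j, Q j) * f).primeFactors with p ∉ prI B,
      p ^ ((∏ j, Q j) * f).factorization p =
      ∏ p ∈ f.primeFactors with p ∉ prI B, p ^ f.factorization p := by
    refine prod_congr ?_ fun p hp => ?_
    · ext p
      simp only [mem_filter, Nat.mem_primeFactors]
      constructor
      · rintro ⟨⟨h1, h2, -⟩, h3⟩
        exact ⟨⟨h1, ((Nat.Prime.dvd_mul h1).1 h2).resolve_left (hna p h1 h3), hf⟩, h3⟩
      · rintro ⟨⟨h1, h2, -⟩, h3⟩
        exact ⟨⟨h1, h2.mul_left _, mul_ne_zero ha hf⟩, h3⟩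
    · obtain ⟨h1, h2⟩ := mem_filter.1 hp
      rw [Nat.factorization_mul ha hf, Finsupp.add_apply,
        Nat.factorization_eq_zero_of_not_dvd (hna p (Nat.prime_of_mem_primeFactors h1) h2), zero_add]
  have e2 : radI B f = ∏ p ∈ f.primeFactors with p ∈ prI B, p ^ f.factorization p := by
    unfold radI
    refine prod_congr ?_ fun p hp => ?_
    · ext p
      simp only [mem_filter, Nat.mem_primeFactors]
      exact ⟨fun h => ⟨⟨hpr p h.1, h.2, hf⟩, h.1⟩, fun h => ⟨h.2, h.1.2.1⟩⟩
    · obtain ⟨h1, h2⟩ := mem_filter.1 hp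
      have hp' := hpr p h2
      have a1 : 1 ≤ f.factorization p :=
        (hp'.dvd_iff_one_le_factorization hf).1 (Nat.dvd_of_mem_primeFactors h1)
      have a2 : ¬ 2 ≤ f.factorization p := fun h =>
        hsq p h2 ((hp'.pow_dvd_iff_le_factorization hf).2 h)
      rw [show f.factorization p = 1 by omega, pow_one]
  beta_reduce
  rw [e1]
  constructor
  · rw [e2, prod_filter_mul_prod_filter_not]
    exact (Nat.prod_primeFactors_pow_factorization hf)
  · unfold radI
    refine Nat.Coprime.prod_left fun p hp => Nat.Coprime.prod_right fun q hq => ?_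
    obtain ⟨h1, h2⟩ := mem_filter.1 hq
    refine Nat.Coprime.pow_right _ ((Nat.coprime_primes (hpr p (mem_filter.1 hp).1)
      (Nat.prime_of_mem_primeFactors h1)).2 ?_)
    rintro rfl
    exact h2 (mem_filter.1 hp).1

end Pool.Agent.Z60

end
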