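import Pool.Agent.MP_a4a062_nt.K60.EXP
import Pool.Agent.MP_a4a062_nt.K60.LOCU
import Pool.Agent.MP_a4a062_nt.K60.LOCV
import Pool.Agent.MP_a4a062_nt.K60.ELL

/-! h60z: definitions and row statements (a Legendre symbol against multiplicative functions). -/

set_option autoImplicit false

open Finset Filter
open scoped Classical BigOperators

noncomputable section
namespace Pool.Agent.Z60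

section
variable {l : ℕ}

/-- Tuples with one prime from each block. -/
def tup (B : Fin l → Finset ℕ) : Finset (Fin l → ℕ) := Fintype.piFinset B

/-- All primes of all blocks. -/
def prI (B : Fin l → Finset ℕ) : Finset ℕ := univ.biUnion B

/-- The sum of the reciprocals of the primes. -/
def Lam (B : Fin l → Finset ℕ) : ℝ := ∑ j, ∑ p ∈ B j, 1 / (p : ℝ)

/-- The number of tuples whose product divides `u`. -/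
def tau (B : Fin l → Finset ℕ) (u : ℕ) : ℕ := #{Q ∈ tup B | ∏ j, Q j ∣ u}

/-- The number of tuples whose product divides `u` and is at least `a / 2`. -/
def tau2 (B : Fin l → Finset ℕ) (a u : ℕ) : ℕ := #{Q ∈ tup B | ∏ j, Q j ∣ u ∧ a ≤ 2 * ∏ j, Q j}

/-- The number of primes of the blocks that divide `u`. -/
def om (B : Fin l → Finset ℕ) (u : ℕ) : ℕ := ∑ j, #{p ∈ B j | p ∣ u}

/-- The product of the primes of the blocks that divide `u`. -/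
def radI (B : Fin l → Finset ℕ) (u : ℕ) : ℕ := ∏ p ∈ prI B with p ∣ u, p

/-- The blocks are nonempty disjoint sets of primes. -/
def Pr (B : Fin l → Finset ℕ) : Prop := (∀ j, (B j).Nonempty) ∧ (∀ j, ∀ p ∈ B j, p.Prime) ∧
  ∀ i j, ∀ p ∈ B i, p ∈ B j → i = j

/-- The blocks are narrow and far out. -/
def Nar (B : Fin l → Finset ℕ) (κ δ : ℝ) : Prop :=
  (∀ j, ∀ p ∈ B j, ∀ q ∈ B j, (p : ℝ) ≤ (1 + κ) * q) ∧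
    ∑ j, (∑ p ∈ B j, 1 / (p : ℝ)) ^ 2 ≤ δ ∧ ∀ Q ∈ tup B, ∑ j, 1 / (Q j : ℝ) ≤ δ

end

/-- The Legendre symbol with the value `1` at the multiples of `P`. -/
def sg (P : ℕ) [Fact P.Prime] (u : ℕ) : ℝ := if P ∣ u then 1 else (legendreSym P (u : ℤ) : ℝ)

/-- Joint independence of the signs `σ` in windows of length `V` along progressions. -/
def Ind (σ : ℕ → ℝ) (Z S V N : ℕ) (η : ℝ) : Prop := ∃ e : ℕ → ℝ, (∀ x, 0 ≤ e x) ∧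
  (∀ X : ℕ, N ≤ X → ∑ x ∈ range X, e x ≤ η * X) ∧ ∀ (x : ℕ) (W : Finset ℕ), W ⊆ range V →
    W.Nonempty → |𝔼 s ∈ range S, ∏ w ∈ W, σ (x + Z * s + w)| ≤ e x

/-- row BLK (paper 1) -/
def BLK_s : Prop := ∀ L κ δ : ℝ, 0 ≤ L → 0 < κ → 0 < δ → ∃ (l : ℕ) (B : Fin l → Finset ℕ),
  Pr B ∧ Nar B κ δ ∧ L ≤ Lam B ∧ Lam B ≤ L + 1

/-- row CNT (paper 2) -/
def CNT_s : Prop := ∀ N c d : ℕ, 0 < d → |(#{n ∈ range N | d ∣ n + c} : ℝ) - N / d| ≤ 1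

/-- row VAR (paper 2) -/
def VAR_s : Prop := ∀ (l : ℕ) (B : Fin l → Finset ℕ) (N c : ℕ), Pr B →
  ∑ n ∈ range N, ((om B (n + c) : ℝ) - Lam B) ^ 2 ≤ N * Lam B + 2 * (#(prI B) : ℝ) ^ 2

/-- row BAD (paper 2) -/
def BAD_s : Prop := ∀ (l : ℕ) (B : Fin l → Finset ℕ) (κ δ : ℝ) (N c : ℕ), Pr B → Nar B κ δ →
  ∀ Q ∈ tup B, (#{n ∈ range N | ¬ ((∀ j, ¬ Q j ∣ n + c) ∧ ∀ j, #{p ∈ B j | p ∣ n + c} ≤ 1)} : ℝ) ≤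
    2 * δ * N + 2 * (#(prI B) : ℝ) ^ 2

/-- row TAU (paper 2) -/
def TAU_s : Prop := ∀ (l : ℕ) (B : Fin l → Finset ℕ) (κ δ : ℝ) (f : ℕ), Pr B → Nar B κ δ → 0 ≤ κ →
  ∀ Q ∈ tup B, tau B ((∏ j, Q j) * f) ≤ 2 ^ om B f ∧
    ((∀ j, ¬ Q j ∣ f) → (∀ j, #{p ∈ B j | p ∣ f} ≤ 1) → (1 + κ) ^ om B f ≤ 2 →
      2 ^ om B f ≤ tau2 B (∏ j, Q j) ((∏ j, Q j) * f))

/-- row TYP (paper 2) -/
def TYP_s : Prop := ∀ (K R : ℕ) (η δ : ℝ), 0 < η → 0 < δ →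
  ∃ (l : ℕ) (B : Fin l → Finset ℕ) (m : ℕ), Pr B ∧ ∑ p ∈ prI B, 1 / (p : ℝ) ^ 2 ≤ δ ∧
    ∀ᶠ N : ℕ in atTop, ∀ c : ℕ, ∀ Q ∈ tup B,
      (#{n ∈ range N | ¬ (2 ^ (K * m + R) ≤ tau2 B (∏ j, Q j) ((∏ j, Q j) * (n + c)) ∧
        tau B ((∏ j, Q j) * (n + c)) ≤ 2 ^ ((K + 1) * m))} : ℝ) ≤ η * N

/-- row LOC (paper 3, one window) -/
def LOC_s : Prop := ∀ (ι : Type) [Fintype ι] (K l m R N x H G h₀ : ℕ) (B : Fin l → Finset ℕ)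
  (h : ι → ℕ) (T : Finset ℕ) (φ : (Fin l → ℕ) → ℕ → ℝ) (σ : ℕ → ℕ → ℝ) (A : ℕ → ι → ℕ → ℝ)
  (θ η : ℝ), Fintype.card ι = K + 1 → Pr B → (∀ i, h i ≠ h₀) →
  (∀ Q ∈ tup B, (∏ j, Q j) + G ≤ H ∧ (∏ j, Q j) * h₀ ≤ G ∧ ∀ i, (∏ j, Q j) * h i ≤ G) →
  T.Nonempty → 0 < θ → 0 ≤ η → (∀ Q t, |φ Q t| ≤ 1) →
  (∀ Q ∈ tup B, ∀ t, φ Q t ≠ 0 → ∏ j, Q j ∣ x + t ∧ x ≤ (∏ j, Q j) * N ∧
    tau B (x + t + (∏ j, Q j) * h₀) ≤ 2 ^ ((K + 1) * m) ∧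
    ∀ i, 2 ^ (K * m + R) ≤ tau2 B (∏ j, Q j) (x + t + (∏ j, Q j) * h i)) →
  (∀ s w, σ s w = 1 ∨ σ s w = -1) → (∀ s i w, |A s i w| ≤ 1) →
  (∀ W : Finset ℕ, W ⊆ range (H + G) → W.Nonempty → |𝔼 s ∈ T, ∏ w ∈ W, σ s w| ≤ η) →
  θ * 𝔼 s ∈ T, ∑ Q ∈ tup B, ∑ t ∈ range H,
      φ Q t * σ s (t + (∏ j, Q j) * h₀) * ∏ i, A s i (t + (∏ j, Q j) * h i) ≤
    (((K : ℝ) + 1) / 2 ^ R + θ ^ 2) *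
        (∑ Q ∈ tup B with x ≤ 2 * ((∏ j, Q j) * N), 2 * (H : ℝ) / ((∏ j, Q j : ℕ) : ℝ)) +
      2 ^ ((K + 1) * m) * (1 + η * Real.exp (θ * (#(tup B) * H)))

/-- row AVG (paper 4, all windows) -/
def AVG_s : Prop := ∀ (ι : Type) [Fintype ι] (K l m R N H Z S h₀ : ℕ) (B : Fin l → Finset ℕ)
  (h : ι → ℕ) (ψ : (Fin l → ℕ) → ℕ → ℝ) (σ : ℕ → ℝ) (A : ι → ℕ → ℝ) (θ η : ℝ),
  Fintype.card ι = K + 1 → Pr B → (∀ i, h i ≠ h₀) → 0 < Z → (∀ Q ∈ tup B, ∏ j, Q j ∣ Z) →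
  Z + Z * (h₀ + ∑ i, h i) ≤ H → 0 < N → 0 < S → 0 < θ → 0 ≤ η → (∀ u, σ u = 1 ∨ σ u = -1) →
  Ind σ Z S (2 * H) N η → (∀ Q u, |ψ Q u| ≤ 1) → (∀ Q ∈ tup B, ∀ u s, ψ Q (u + Z * s) = ψ Q u) →
  (∀ Q ∈ tup B, ∀ u, ψ Q u ≠ 0 → tau B (u + (∏ j, Q j) * h₀) ≤ 2 ^ ((K + 1) * m) ∧
    ∀ i, 2 ^ (K * m + R) ≤ tau2 B (∏ j, Q j) (u + (∏ j, Q j) * h i)) → (∀ i u, |A i u| ≤ 1) →
  θ * 𝔼 Q ∈ tup B, ∑ n ∈ range N, ψ Q ((∏ j, Q j) * n) * σ ((∏ j, Q j) * n + (∏ j, Q j) * h₀) *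
      ∏ i, A i ((∏ j, Q j) * n + (∏ j, Q j) * h i) ≤
    θ * (2 * ((Z : ℝ) * S + H)) + 6 * N * (((K : ℝ) + 1) / 2 ^ R + θ ^ 2) +
      2 ^ ((K + 1) * m) * Z * N * (1 + η * Real.exp (θ * (#(tup B) * H))) / H

/-- row GEN (paper 4, choice of the parameters) -/
def GEN_s : Prop := ∀ (ι : Type) [Fintype ι] [Nonempty ι] (h : ι → ℕ) (h₀ : ℕ) (δ ε : ℝ),
  (∀ i, h i ≠ h₀) → 0 < δ → 0 < ε → ∃ (l : ℕ) (B : Fin l → Finset ℕ), Pr B ∧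
    ∑ p ∈ prI B, 1 / (p : ℝ) ^ 2 ≤ δ ∧ ∀ Z : ℕ, 0 < Z → (∀ Q ∈ tup B, ∏ j, Q j ∣ Z) →
    ∃ (V : ℕ) (η c : ℝ), 0 < η ∧ 0 < c ∧ ∀ᶠ N : ℕ in atTop,
      ∀ (S : ℕ) (σ : ℕ → ℝ) (β : (Fin l → ℕ) → ℕ → ℝ) (A : ι → ℕ → ℝ), 0 < S → (S : ℝ) ≤ c * N →
      (∀ u, σ u = 1 ∨ σ u = -1) → Ind σ Z S V N η → (∀ Q u, |β Q u| ≤ 1) →
      (∀ Q ∈ tup B, ∀ u s, β Q (u + Z * s) = β Q u) → (∀ i u, |A i u| ≤ 1) →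
      𝔼 Q ∈ tup B, ∑ n ∈ range N, β Q ((∏ j, Q j) * n) * σ ((∏ j, Q j) * n + (∏ j, Q j) * h₀) *
        ∏ i, A i ((∏ j, Q j) * n + (∏ j, Q j) * h i) ≤ ε * N

/-- row MOM (paper 5, second moment by Weil) -/
def MOM_s : Prop := ∀ (P : ℕ) [Fact P.Prime] (Z S V : ℕ) (W : Finset ℕ), P ≠ 2 → ¬ P ∣ Z →
  W ⊆ range V → W.Nonempty → V ≤ P → S ≤ P →
  ∑ x ∈ range P, (∑ s ∈ range S, ∏ w ∈ W, (legendreSym P ((x + Z * s + w : ℕ) : ℤ) : ℝ)) ^ 2 ≤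
    (V : ℝ) * S * P + 10 * V * (S : ℝ) ^ 2 * √(P : ℝ)

/-- row IND (paper 5) -/
def IND_s : Prop := ∀ (Z V : ℕ) (η c : ℝ), 0 < Z → 0 < η → 0 < c → ∃ P₀ C : ℕ,
  ∀ (P : ℕ) [Fact P.Prime], P₀ ≤ P → ∀ N : ℕ, C * P ≤ N ^ 2 →
    ∃ S : ℕ, 0 < S ∧ (S : ℝ) ≤ c * N ∧ Ind (sg P) Z S V N η

/-- row DEC (paper 6) -/
def DEC_s : Prop := ∀ (l : ℕ) (B : Fin l → Finset ℕ), Pr B → ∃ nI : ℕ → ℕ, (∀ v, nI v ≠ 0) ∧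
  ∀ Q ∈ tup B, ∀ f : ℕ, f ≠ 0 → (∀ p ∈ prI B, ¬ p ^ 2 ∣ f) →
    f = radI B f * nI ((∏ j, Q j) * f) ∧ Nat.Coprime (radI B f) (nI ((∏ j, Q j) * f))

/-- row ELL (paper 6) -/
def ELL_s : Prop := ∀ (ι : Type) [Fintype ι] [Nonempty ι] (h : ι → ℕ) (h₀ M : ℕ) (ε : ℝ),
  (∀ i, h i ≠ h₀) → (∀ i, 0 < h i) → 0 < M → 0 < ε → ∃ P₀ C : ℕ,
  ∀ (P : ℕ) [Fact P.Prime], P₀ ≤ P → ∀ N : ℕ, C * P ≤ N ^ 2 → ∀ (ψ : ℕ → ℂ) (g : ι → ℕ → ℂ),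
    (∀ n, ‖ψ n‖ ≤ 1) → (∀ n, ψ (n + M) = ψ n) → (∀ i n, ‖g i n‖ ≤ 1) →
    (∀ i u v, u ≠ 0 → v ≠ 0 → Nat.Coprime u v → g i (u * v) = g i u * g i v) →
    ‖∑ n ∈ range N, ψ n * (legendreSym P ((n + h₀ : ℕ) : ℤ) : ℂ) * ∏ i, g i (n + h i)‖ ≤ ε * N

/-- the target -/
def TOP_s : Prop := ∀ (K M h₀ : ℕ) (h : Fin K → ℕ) (ε : ℝ), (∀ i, h i ≠ h₀) → 0 < M → 0 < ε →
  ∃ P₀ C : ℕ, ∀ (P : ℕ) [Fact P.Prime], P₀ ≤ P → ∀ N : ℕ, C * P ≤ N ^ 2 →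
    ∀ (ψ : ℕ → ℂ) (g : Fin K → ℕ → ℂ), (∀ n, ‖ψ n‖ ≤ 1) → (∀ n, ψ (n + M) = ψ n) →
    (∀ i n, ‖g i n‖ ≤ 1) →
    (∀ i u v, u ≠ 0 → v ≠ 0 → Nat.Coprime u v → g i (u * v) = g i u * g i v) →
    ‖∑ n ∈ Icc 1 N, ψ n * (legendreSym P ((n + h₀ : ℕ) : ℤ) : ℂ) * ∏ i, g i (n + h i)‖ ≤ ε * N

end Pool.Agent.Z60

end
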