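import Pool.Agent.MP_a4a062_nt.Z60.Defs

/-! h60z row ELL. -/

set_option autoImplicit false

open Finset Filter
open scoped Classical BigOperators

noncomputable section
namespace Pool.Agent.Z60
open Pool.Agent.K60 (ellE ellP ell_expand)

theorem ell_pm (P : ℕ) [Fact P.Prime] {u : ℕ} (h : ¬ P ∣ u) :
    legendreSym P (u : ℤ) = 1 ∨ legendreSym P (u : ℤ) = -1 :=
  legendreSym.eq_one_or_neg_one P (by
    rw [Int.cast_natCast, Ne, ZMod.natCast_eq_zero_iff]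
    exact h)

theorem ell_chi (P : ℕ) [Fact P.Prime] (u : ℕ) : ‖(legendreSym P (u : ℤ) : ℂ)‖ ≤ 1 := by
  by_cases h : P ∣ u
  · rw [(legendreSym.eq_zero_iff P _).2 (by
      rw [Int.cast_natCast, ZMod.natCast_eq_zero_iff]
      exact h)]
    simp
  · rcases ell_pm P h with e | e <;> simp [e]

theorem ell_sg (P : ℕ) [Fact P.Prime] (u : ℕ) : sg P u = 1 ∨ sg P u = -1 := by
  unfold sg
  split_ifs with h
  · exact Or.inl rfl
  · rcases ell_pm P h with e | e <;> simp [e]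

theorem ell_psi {M : ℕ} {ψ : ℕ → ℂ} (h : ∀ n, ψ (n + M) = ψ n) (n k : ℕ) :
    ψ (n + M * k) = ψ n := by
  induction k with
  | zero => simp
  | succ k ih => rw [Nat.mul_succ, ← add_assoc, h, ih]

theorem ell_rad {l : ℕ} (B : Fin l → Finset ℕ) (u k : ℕ) :
    radI B (u + (∏ p ∈ prI B, p) * k) = radI B u := by
  unfold radI
  refine prod_congr (filter_congr fun p hp => ?_) fun _ _ => rfl
  exact (Nat.dvd_add_iff_left ((dvd_prod_of_mem (fun p => p) hp).mul_right k)).symm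

/-- The edge coefficient. -/
def ell_C {ι : Type} [Fintype ι] {l : ℕ} (B : Fin l → Finset ℕ) (P : ℕ) [Fact P.Prime]
    (h : ι → ℕ) (ψ : ℕ → ℂ) (g : ι → ℕ → ℂ) (a u : ℕ) : ℂ :=
  ψ (u / a) * (legendreSym P (a : ℤ) : ℂ) * ∏ i, g i (radI B (u / a + h i))

theorem ell_one {ι : Type} [Fintype ι] {g : ι → ℕ → ℂ} (hg : ∀ i n, ‖g i n‖ ≤ 1) (v : ι → ℕ) :
    ‖∏ i, g i (v i)‖ ≤ 1 := by
  rw [norm_prod]
  exact prod_le_one (fun _ _ => norm_nonneg _) fun i _ => hg i _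

theorem ell_norm {ι : Type} [Fintype ι] {l : ℕ} (B : Fin l → Finset ℕ) (P : ℕ) [Fact P.Prime]
    (h : ι → ℕ) {ψ : ℕ → ℂ} {g : ι → ℕ → ℂ} (hψ : ∀ n, ‖ψ n‖ ≤ 1) (hg : ∀ i n, ‖g i n‖ ≤ 1)
    (a u : ℕ) : ‖ell_C B P h ψ g a u‖ ≤ 1 := by
  unfold ell_C
  rw [norm_mul, norm_mul]
  exact mul_le_one₀ (mul_le_one₀ (hψ _) (norm_nonneg _) (ell_chi P a)) (norm_nonneg _)
    (ell_one hg _)

theorem ell_per {ι : Type} [Fintype ι] {l : ℕ} (B : Fin l → Finset ℕ) (P : ℕ) [Fact P.Prime]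
    (h : ι → ℕ) {M : ℕ} {ψ : ℕ → ℂ} (g : ι → ℕ → ℂ) (hψ : ∀ n, ψ (n + M) = ψ n) {a : ℕ}
    (ha : 0 < a) (u k : ℕ) :
    ell_C B P h ψ g a (u + a * (M * (∏ p ∈ prI B, p) * k)) = ell_C B P h ψ g a u := by
  unfold ell_C
  rw [Nat.add_mul_div_left _ _ ha]
  have e1 : ψ (u / a + M * (∏ p ∈ prI B, p) * k) = ψ (u / a) := by
    rw [mul_assoc, ell_psi hψ]
  have e2 : ∀ i, radI B (u / a + M * (∏ p ∈ prI B, p) * k + h i) = radI B (u / a + h i) := by
    intro i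
    rw [show u / a + M * (∏ p ∈ prI B, p) * k + h i =
      u / a + h i + (∏ p ∈ prI B, p) * (M * k) by ring, ell_rad]
  rw [e1, prod_congr rfl fun i _ => congrArg (g i) (e2 i)]

theorem ell_pt {ι : Type} [Fintype ι] {l : ℕ} {B : Fin l → Finset ℕ} (hB : Pr B) (P : ℕ)
    [Fact P.Prime] {h : ι → ℕ} (h₀ : ℕ) {ψ : ℕ → ℂ} {g : ι → ℕ → ℂ} {nI : ℕ → ℕ} {a : ℕ}
    (hn : ∀ v, nI v ≠ 0) (ha : 0 < a) (haP : a < P) (hh : ∀ i, 0 < h i)
    (hdec : ∀ f : ℕ, f ≠ 0 → (∀ p ∈ prI B, ¬ p ^ 2 ∣ f) →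
      f = radI B f * nI (a * f) ∧ Nat.Coprime (radI B f) (nI (a * f)))
    (hψ : ∀ n, ‖ψ n‖ ≤ 1) (hg : ∀ i n, ‖g i n‖ ≤ 1)
    (hm : ∀ i u v, u ≠ 0 → v ≠ 0 → Nat.Coprime u v → g i (u * v) = g i u * g i v)
    {w : ℂ} (hw : ‖w‖ = 1) (n : ℕ) :
    (w * (ψ n * (legendreSym P ((n + h₀ : ℕ) : ℤ) : ℂ) * ∏ i, g i (n + h i))).re ≤
      (w * ell_C B P h ψ g a (a * n) * (sg P (a * n + a * h₀) : ℝ) *
        ∏ i, g i (nI (a * n + a * h i))).re +
      2 * ((∑ i, ∑ p ∈ prI B, if p ^ 2 ∣ n + h i then (1 : ℝ) else 0) +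
        if P ∣ n + h₀ then (1 : ℝ) else 0) := by
  have n1 : ∀ i, 0 ≤ ∑ p ∈ prI B, if p ^ 2 ∣ n + h i then (1 : ℝ) else 0 := fun i =>
    sum_nonneg fun p _ => by split_ifs <;> norm_num
  have n2 : 0 ≤ ∑ i, ∑ p ∈ prI B, if p ^ 2 ∣ n + h i then (1 : ℝ) else 0 :=
    sum_nonneg fun i _ => n1 i
  have n3 : (0 : ℝ) ≤ if P ∣ n + h₀ then (1 : ℝ) else 0 := by split_ifs <;> norm_num
  by_cases hgood : (∀ i, ∀ p ∈ prI B, ¬ p ^ 2 ∣ n + h i) ∧ ¬ P ∣ n + h₀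
  · refine le_trans (le_of_eq (congrArg Complex.re ?_)) (le_add_of_nonneg_right (by linarith))
    have hPa : ¬ P ∣ a := fun e => absurd (Nat.le_of_dvd ha e) (by omega)
    have hP2 : ¬ P ∣ a * n + a * h₀ := fun e => by
      rw [← mul_add] at e
      exact ((Fact.out : P.Prime).dvd_mul.1 e).elim hPa hgood.2
    have e : ∀ i, g i (n + h i) = g i (radI B (n + h i)) * g i (nI (a * n + a * h i)) := by
      intro i
      have h1 := hh i
      obtain ⟨d1, d2⟩ := hdec (n + h i) (by omega) (hgood.1 i)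
      have r0 : radI B (n + h i) ≠ 0 := fun e => by
        rw [e, zero_mul] at d1
        omega
      rw [← mul_add, ← hm i _ _ r0 (hn _) d2, ← d1]
    have e2 : (legendreSym P ((n + h₀ : ℕ) : ℤ) : ℂ) =
        (legendreSym P (a : ℤ) : ℂ) * ((sg P (a * n + a * h₀) : ℝ) : ℂ) := by
      unfold sg
      rw [if_neg hP2, ← mul_add, Nat.cast_mul, legendreSym.mul]
      rcases ell_pm P hPa with e | e <;> simp [e]
    unfold ell_C
    rw [Nat.mul_div_cancel_left _ ha, prod_congr rfl fun i _ => e i, prod_mul_distrib, e2]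
    ring
  · have b1 : 1 ≤ (∑ i, ∑ p ∈ prI B, if p ^ 2 ∣ n + h i then (1 : ℝ) else 0) +
        if P ∣ n + h₀ then (1 : ℝ) else 0 := by
      by_cases hP : P ∣ n + h₀
      · rw [if_pos hP]
        linarith
      · have : ¬ ∀ i, ∀ p ∈ prI B, ¬ p ^ 2 ∣ n + h i := fun e => hgood ⟨e, hP⟩
        push Not at this
        obtain ⟨i, p, hp, hd⟩ := this
        have s1 := single_le_sum (f := fun p => if p ^ 2 ∣ n + h i then (1 : ℝ) else 0)
          (fun p _ => by split_ifs <;> norm_num) hp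
        have s2 := single_le_sum
          (f := fun i => ∑ p ∈ prI B, if p ^ 2 ∣ n + h i then (1 : ℝ) else 0)
          (fun i _ => n1 i) (mem_univ i)
        simp only [if_pos hd] at s1
        linarith
    have b2 : ‖w * (ψ n * (legendreSym P ((n + h₀ : ℕ) : ℤ) : ℂ) * ∏ i, g i (n + h i))‖ ≤ 1 := by
      rw [norm_mul, hw, one_mul, norm_mul, norm_mul]
      exact mul_le_one₀ (mul_le_one₀ (hψ _) (norm_nonneg _) (ell_chi P _)) (norm_nonneg _)
        (ell_one hg _)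
    have b3 : ‖w * ell_C B P h ψ g a (a * n) * (sg P (a * n + a * h₀) : ℝ) *
        ∏ i, g i (nI (a * n + a * h i))‖ ≤ 1 := by
      have : ‖((sg P (a * n + a * h₀) : ℝ) : ℂ)‖ = 1 := by
        rcases ell_sg P (a * n + a * h₀) with e | e <;> simp [e]
      rw [norm_mul, norm_mul, norm_mul, hw, one_mul, this, mul_one]
      exact mul_le_one₀ (ell_norm B P h hψ hg _ _) (norm_nonneg _) (ell_one hg _)
    have b4 := (Complex.re_le_norm _).trans b2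
    have b5 := abs_le.1 ((Complex.abs_re_le_norm _).trans b3)
    linarith

theorem ell_cnt (hC : CNT_s) (N c d : ℕ) (hd : 0 < d) :
    ∑ n ∈ range N, (if d ∣ n + c then (1 : ℝ) else 0) ≤ N / d + 1 := by
  rw [sum_boole]
  have := abs_le.1 (hC N c d hd)
  linarith

theorem ell_row (hC : CNT_s) (hG : GEN_s) (hI : IND_s) (hD : DEC_s) : ELL_s := by
  intro ι _ _ h h₀ M ε hne hh hM hε
  obtain ⟨κ, hκ⟩ : ∃ κ : ℕ, κ = Fintype.card ι := ⟨_, rfl⟩
  obtain ⟨l, B, hB, hδ, hZ⟩ := hG ι h h₀ (ε / (12 * (κ + 1))) (ε / (2 * 2 ^ κ)) hne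
    (by positivity) (by positivity)
  obtain ⟨nI, hn, hdec⟩ := hD l B hB
  have pp : ∀ p ∈ prI B, 0 < p := fun p hp => by
    obtain ⟨j, -, hj⟩ := mem_biUnion.1 hp
    exact (hB.2.1 j p hj).pos
  have ap : ∀ Q ∈ tup B, 0 < ∏ j, Q j := fun Q hQ =>
    prod_pos fun j _ => (hB.2.1 j _ (Fintype.mem_piFinset.1 hQ j)).pos
  have hT : (tup B).Nonempty := Fintype.piFinset_nonempty.2 hB.1
  obtain ⟨Z, hZd⟩ : ∃ Z, Z = (∏ Q ∈ tup B, ∏ j, Q j) * (M * ∏ p ∈ prI B, p) := ⟨_, rfl⟩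
  have Z0 : 0 < Z := hZd ▸ Nat.mul_pos (prod_pos ap) (Nat.mul_pos hM (prod_pos pp))
  have aZ : ∀ Q ∈ tup B, ∃ r, Z = (∏ j, Q j) * (M * (∏ p ∈ prI B, p) * r) := fun Q hQ => by
    obtain ⟨r, hr⟩ := dvd_prod_of_mem (fun Q : Fin l → ℕ => ∏ j, Q j) hQ
    exact ⟨r, by rw [hZd, hr]; ring⟩
  have aZ' : ∀ Q ∈ tup B, ∏ j, Q j ∣ Z := fun Q hQ => (aZ Q hQ).elim fun r hr => ⟨_, hr⟩
  obtain ⟨V, η, c, hη, hc, hN⟩ := hZ Z Z0 aZ'
  obtain ⟨N₀, hN₀⟩ := eventually_atTop.1 hN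
  obtain ⟨P₀, C, hPC⟩ := hI Z V η c Z0 hη hc
  obtain ⟨P₁, hP₁⟩ := exists_nat_ge (12 / ε)
  obtain ⟨N₁, hN₁⟩ := exists_nat_ge (12 * (κ * (#(prI B) : ℝ) + 1) / ε)
  refine ⟨P₀ + P₁ + Z + 1, C + (N₀ + N₁) ^ 2, fun P _ hP N hCN ψ g hψ hper hg hm => ?_⟩
  have P0 : 0 < P := by omega
  have hN' : N₀ + N₁ ≤ N := by
    have h1 : (N₀ + N₁) ^ 2 ≤ N ^ 2 := by nlinarith
    exact (pow_le_pow_iff_left₀ (Nat.zero_le _) (Nat.zero_le _) two_ne_zero).1 h1
  obtain ⟨S, hS, hSc, hInd⟩ := hPC P (by omega) N (by nlinarith)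
  obtain ⟨w, hw, hW⟩ := Complex.exists_norm_eq_mul_self
    (∑ n ∈ range N, ψ n * (legendreSym P ((n + h₀ : ℕ) : ℤ) : ℂ) * ∏ i, g i (n + h i))
  have hW' := congrArg Complex.re hW
  rw [Complex.ofReal_re, mul_sum, Complex.re_sum] at hW'
  rw [hW']
  have N0 : (0 : ℝ) ≤ N := Nat.cast_nonneg N
  have hbad : ∑ n ∈ range N, 2 * ((∑ i, ∑ p ∈ prI B, if p ^ 2 ∣ n + h i then (1 : ℝ) else 0) +
      if P ∣ n + h₀ then (1 : ℝ) else 0) ≤ ε / 2 * N := by
    rw [← mul_sum, sum_add_distrib, sum_comm]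
    have h1 : ∀ i ∈ (univ : Finset ι), ∑ n ∈ range N,
        (∑ p ∈ prI B, if p ^ 2 ∣ n + h i then (1 : ℝ) else 0) ≤
        N * (ε / (12 * (κ + 1))) + #(prI B) := fun i _ => by
      rw [sum_comm]
      refine (sum_le_sum fun p hp => ell_cnt hC N (h i) (p ^ 2) (pow_pos (pp p hp) 2)).trans ?_
      rw [sum_add_distrib, sum_const, nsmul_eq_mul, mul_one]
      refine add_le_add (le_trans (le_of_eq ?_) (mul_le_mul_of_nonneg_left hδ N0)) le_rfl
      rw [mul_sum]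
      exact sum_congr rfl fun p _ => by push_cast; ring
    have h2 := sum_le_card_nsmul _ _ _ h1
    rw [card_univ, ← hκ, nsmul_eq_mul] at h2
    have h3 := ell_cnt hC N h₀ P P0
    have h4 : (κ : ℝ) * (N * (ε / (12 * (κ + 1)))) ≤ ε / 12 * N := by
      rw [show (κ : ℝ) * (N * (ε / (12 * (κ + 1)))) = ε / 12 * N * (κ / (κ + 1)) by field_simp]
      exact mul_le_of_le_one_right (by positivity) ((div_le_one (by positivity)).2 (by linarith))
    have h5 : (N : ℝ) / P ≤ ε / 12 * N := by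
      have p1 : (P₁ : ℝ) ≤ P := by exact_mod_cast (by omega : P₁ ≤ P)
      have p2 : (0 : ℝ) < P := by exact_mod_cast P0
      rw [div_le_iff₀ hε] at hP₁
      rw [div_le_iff₀ p2]
      nlinarith [mul_le_mul_of_nonneg_right p1 hε.le]
    have h6 : κ * (#(prI B) : ℝ) + 1 ≤ ε / 12 * N := by
      have p1 : (N₁ : ℝ) ≤ N := by exact_mod_cast (by omega : N₁ ≤ N)
      rw [div_le_iff₀ hε] at hN₁
      nlinarith [mul_le_mul_of_nonneg_right p1 hε.le]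
    rw [mul_add] at h2
    linarith
  have hmain : ∀ τ ∈ (univ : Finset (ι → Bool)), 𝔼 Q ∈ tup B, ∑ n ∈ range N,
      (w * ell_C B P h ψ g (∏ j, Q j) ((∏ j, Q j) * n) * ∏ i, ellE (τ i)).re *
        sg P ((∏ j, Q j) * n + (∏ j, Q j) * h₀) *
        ∏ i, ellP (τ i) (g i (nI ((∏ j, Q j) * n + (∏ j, Q j) * h i))) ≤
      ε / (2 * 2 ^ κ) * N := by
    intro τ _
    refine hN₀ N (by omega) S (sg P)
      (fun Q u => (w * ell_C B P h ψ g (∏ j, Q j) u * ∏ i, ellE (τ i)).re)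
      (fun i v => ellP (τ i) (g i (nI v))) hS hSc (ell_sg P) hInd (fun Q u => ?_)
      (fun Q hQ u s => ?_) fun i v => ?_
    · refine (Complex.abs_re_le_norm _).trans ?_
      have h1 : ‖∏ i, ellE (τ i)‖ = 1 := by
        rw [norm_prod]
        exact prod_eq_one fun i _ => by unfold ellE; split_ifs <;> simp
      rw [norm_mul, norm_mul, hw, h1, one_mul, mul_one]
      exact ell_norm B P h hψ hg _ _
    · obtain ⟨r, hr⟩ := aZ Q hQ
      beta_reduce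
      rw [show u + Z * s = u + (∏ j, Q j) * (M * (∏ p ∈ prI B, p) * (r * s)) by rw [hr]; ring,
        ell_per B P h g hper (ap Q hQ)]
    · unfold ellP
      split_ifs
      · exact (Complex.abs_re_le_norm _).trans (hg i _)
      · exact (Complex.abs_im_le_norm _).trans (hg i _)
  calc _ = 𝔼 _Q ∈ tup B, ∑ n ∈ range N,
        (w * (ψ n * (legendreSym P ((n + h₀ : ℕ) : ℤ) : ℂ) * ∏ i, g i (n + h i))).re :=
        (expect_const hT _).symm
    _ ≤ 𝔼 Q ∈ tup B, ((∑ τ : ι → Bool, ∑ n ∈ range N,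
        (w * ell_C B P h ψ g (∏ j, Q j) ((∏ j, Q j) * n) * ∏ i, ellE (τ i)).re *
          sg P ((∏ j, Q j) * n + (∏ j, Q j) * h₀) *
          ∏ i, ellP (τ i) (g i (nI ((∏ j, Q j) * n + (∏ j, Q j) * h i)))) + ε / 2 * N) := by
        refine expect_le_expect fun Q hQ => ?_
        refine le_trans ?_ (add_le_add_right hbad _)
        rw [sum_comm, ← sum_add_distrib]
        refine sum_le_sum fun n _ => ?_
        rw [← ell_expand]
        have := Nat.le_of_dvd Z0 (aZ' Q hQ)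
        exact ell_pt hB P h₀ hn (ap Q hQ) (by omega) hh (hdec Q hQ) hψ hg hm hw n
    _ ≤ ε * N := by
        rw [expect_add_distrib, expect_const hT, expect_sum_comm]
        have h1 := sum_le_card_nsmul _ _ _ hmain
        rw [card_univ, Fintype.card_fun, Fintype.card_bool, nsmul_eq_mul, ← hκ] at h1
        have h2 : ((2 ^ κ : ℕ) : ℝ) * (ε / (2 * 2 ^ κ) * N) = ε / 2 * N := by
          push_cast
          field_simp
        linarith

end Pool.Agent.Z60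

end
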