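import Pool.Agent.MP_a4a062_nt.Z60.Defs

/-! h60z row GEN. -/

set_option autoImplicit false

open Finset Filter
open scoped Classical BigOperators

noncomputable section
namespace Pool.Agent.Z60

theorem gen_tau {l : ℕ} (B : Fin l → Finset ℕ) {Z : ℕ} (hZ : ∀ Q ∈ tup B, ∏ j, Q j ∣ Z)
    (u s c : ℕ) : tau B (u + Z * s + c) = tau B (u + c) := by
  unfold tau
  refine congrArg Finset.card (filter_congr fun Q hQ => ?_)
  rw [add_right_comm]
  exact (Nat.dvd_add_iff_left ((hZ Q hQ).mul_right s)).symm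

theorem gen_tau2 {l : ℕ} (B : Fin l → Finset ℕ) {Z : ℕ} (hZ : ∀ Q ∈ tup B, ∏ j, Q j ∣ Z)
    (a u s c : ℕ) : tau2 B a (u + Z * s + c) = tau2 B a (u + c) := by
  unfold tau2
  refine congrArg Finset.card (filter_congr fun Q hQ => ?_)
  rw [add_right_comm]
  exact and_congr_left fun _ => (Nat.dvd_add_iff_left ((hZ Q hQ).mul_right s)).symm

theorem gen_cut {ι : Type} [Fintype ι] (N : ℕ) (p q : ℕ → Prop) (h : ι → ℕ) (h₀ : ℕ) (b : ℝ)
    (hb : ∀ c : ℕ, (#{n ∈ range N | ¬ (p (n + c) ∧ q (n + c))} : ℝ) ≤ b) (F G : ℕ → ℝ)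
    (h1 : ∀ n, q (n + h₀) ∧ (∀ i, p (n + h i)) → F n ≤ G n) (h2 : ∀ n, F n ≤ G n + 1)
    : ∑ n ∈ range N, F n ≤ ∑ n ∈ range N, G n + (Fintype.card ι + 1) * b := by
  have h3 : ∀ n ∈ range N, F n ≤ G n + ((if ¬ (p (n + h₀) ∧ q (n + h₀)) then (1 : ℝ) else 0) +
      ∑ i, if ¬ (p (n + h i) ∧ q (n + h i)) then (1 : ℝ) else 0) := by
    intro n _
    have h4 : ∀ i, (0 : ℝ) ≤ if ¬ (p (n + h i) ∧ q (n + h i)) then (1 : ℝ) else 0 := fun i => by
      split_ifs <;> norm_num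
    have h5 : (0 : ℝ) ≤ ∑ i, if ¬ (p (n + h i) ∧ q (n + h i)) then (1 : ℝ) else 0 :=
      sum_nonneg fun i _ => h4 i
    have h6 : (0 : ℝ) ≤ if ¬ (p (n + h₀) ∧ q (n + h₀)) then (1 : ℝ) else 0 := by
      split_ifs <;> norm_num
    by_cases hq : q (n + h₀)
    · by_cases hp : ∀ i, p (n + h i)
      · linarith [h1 n ⟨hq, hp⟩]
      · obtain ⟨i, hi⟩ := not_forall.1 hp
        have h7 := single_le_sum (fun i _ => h4 i) (mem_univ i)
        rw [if_pos fun hh => hi hh.1] at h7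
        linarith [h2 n]
    · rw [if_pos fun hh => hq hh.2]
      linarith [h2 n]
  have h8 : ∀ c : ℕ, (∑ n ∈ range N, if ¬ (p (n + c) ∧ q (n + c)) then (1 : ℝ) else 0) ≤ b :=
    fun c => by rw [sum_boole]; exact hb c
  refine (sum_le_sum h3).trans ?_
  rw [sum_add_distrib, sum_add_distrib, sum_comm]
  have h9 : (∑ i, ∑ n ∈ range N, if ¬ (p (n + h i) ∧ q (n + h i)) then (1 : ℝ) else 0) ≤
      Fintype.card ι * b := by
    refine (sum_le_sum fun i _ => h8 (h i)).trans ?_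
    rw [sum_const, card_univ, nsmul_eq_mul]
  linarith [h8 h₀]

theorem gen_row (hT : TYP_s) (hA : AVG_s) : GEN_s := by
  intro ι _ _ h h₀ δ ε hne hδ hε
  obtain ⟨K, hK⟩ : ∃ K, Fintype.card ι = K + 1 :=
    ⟨Fintype.card ι - 1, by have := Fintype.card_pos (α := ι); omega⟩
  obtain ⟨θ, hθe⟩ : ∃ θ : ℝ, θ = ε / 36 := ⟨_, rfl⟩
  have hθ : 0 < θ := by rw [hθe]; positivity
  obtain ⟨R, hR⟩ : ∃ R : ℕ, ((K : ℝ) + 1) / 2 ^ R ≤ θ ^ 2 := by
    obtain ⟨R, hR⟩ := pow_unbounded_of_one_lt (((K : ℝ) + 1) / θ ^ 2) (one_lt_two (α := ℝ))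
    refine ⟨R, ?_⟩
    rw [div_le_iff₀ (by positivity)]
    rw [div_lt_iff₀ (by positivity)] at hR
    linarith
  obtain ⟨l, B, m, hB, hδ', hN⟩ := hT K R (ε / 6 / (K + 2)) δ (by positivity) hδ
  refine ⟨l, B, hB, hδ', fun Z hZ hdv => ?_⟩
  obtain ⟨H, hH⟩ := exists_nat_ge (max ((Z + Z * (h₀ + ∑ i, h i) : ℕ) : ℝ)
    (2 ^ ((K + 1) * m) * Z * 2 / (θ * (ε / 6))))
  have hH1 : Z + Z * (h₀ + ∑ i, h i) ≤ H := by exact_mod_cast (le_max_left _ _).trans hH
  have hH2 := (le_max_right _ _).trans hH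
  have hH0 : (0 : ℝ) < H := by
    have : 0 < H := lt_of_lt_of_le (Nat.add_pos_left hZ _) hH1
    exact_mod_cast this
  have hZ0 : (0 : ℝ) < Z := by exact_mod_cast hZ
  refine ⟨2 * H, Real.exp (-(θ * (#(tup B) * H))), ε / 6 / (2 * Z), Real.exp_pos _,
    by positivity, ?_⟩
  filter_upwards [hN, eventually_gt_atTop 0,
    (tendsto_natCast_atTop_atTop (R := ℝ)).eventually_ge_atTop (2 * H / (ε / 6))] with N hN hN0 hN1
  intro S σ β A hS hSc hσ hI hβ hper hAa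
  obtain ⟨ψ, hψ⟩ : ∃ ψ : (Fin l → ℕ) → ℕ → ℝ, ∀ Q u, ψ Q u =
      if tau B (u + (∏ j, Q j) * h₀) ≤ 2 ^ ((K + 1) * m) ∧
        ∀ i, 2 ^ (K * m + R) ≤ tau2 B (∏ j, Q j) (u + (∏ j, Q j) * h i) then β Q u else 0 :=
    ⟨_, fun _ _ => rfl⟩
  have key := hA ι K l m R N H Z S h₀ B h ψ σ A θ _ hK hB hne hZ hdv hH1 hN0 hS hθ
    (Real.exp_pos _).le hσ hI
    (fun Q u => by
      rw [hψ]
      split_ifs
      · exact hβ Q u
      · simp)
    (fun Q hQ u s => by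
      simp only [hψ, gen_tau B hdv, gen_tau2 B hdv, hper Q hQ])
    (fun Q _ u hu => by
      rw [hψ] at hu
      by_contra hc
      exact hu (if_neg hc)) hAa
  rw [← Real.exp_add, neg_add_cancel, Real.exp_zero] at key
  have hNr : (0 : ℝ) < N := by exact_mod_cast hN0
  have hne' : (tup B).Nonempty := Fintype.piFinset_nonempty.2 hB.1
  have hcut : ∀ Q ∈ tup B, ∑ n ∈ range N, β Q ((∏ j, Q j) * n) *
      σ ((∏ j, Q j) * n + (∏ j, Q j) * h₀) * ∏ i, A i ((∏ j, Q j) * n + (∏ j, Q j) * h i) ≤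
      ∑ n ∈ range N, ψ Q ((∏ j, Q j) * n) * σ ((∏ j, Q j) * n + (∏ j, Q j) * h₀) *
        ∏ i, A i ((∏ j, Q j) * n + (∏ j, Q j) * h i) + ε / 6 * N := by
    intro Q hQ
    have h1 := gen_cut N (fun f => 2 ^ (K * m + R) ≤ tau2 B (∏ j, Q j) ((∏ j, Q j) * f))
      (fun f => tau B ((∏ j, Q j) * f) ≤ 2 ^ ((K + 1) * m)) h h₀ (ε / 6 / (K + 2) * N)
      (fun c => (le_of_eq (congrArg _ (congrArg _ (filter_congr_decidable _ _ _)))).trans
        ((le_of_eq (congrArg _ (congrArg _ (filter_congr_decidable _ _ _))).symm).trans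
          (hN c Q hQ)))
      (fun n => β Q ((∏ j, Q j) * n) * σ ((∏ j, Q j) * n + (∏ j, Q j) * h₀) *
        ∏ i, A i ((∏ j, Q j) * n + (∏ j, Q j) * h i))
      (fun n => ψ Q ((∏ j, Q j) * n) * σ ((∏ j, Q j) * n + (∏ j, Q j) * h₀) *
        ∏ i, A i ((∏ j, Q j) * n + (∏ j, Q j) * h i))
      (fun n hn => by
        simp only [mul_add] at hn
        rw [hψ, if_pos hn])
      (fun n => by
        rw [hψ]
        split_ifs
        · linarith
        · have h2 : |σ ((∏ j, Q j) * n + (∏ j, Q j) * h₀)| ≤ 1 := by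
            rcases hσ ((∏ j, Q j) * n + (∏ j, Q j) * h₀) with e | e <;> rw [e] <;> simp
          have h3 : |∏ i, A i ((∏ j, Q j) * n + (∏ j, Q j) * h i)| ≤ 1 := by
            rw [abs_prod]
            exact prod_le_one (fun _ _ => abs_nonneg _) fun i _ => hAa i _
          refine (le_abs_self _).trans ?_
          rw [abs_mul, abs_mul, zero_mul, zero_mul, zero_add]
          exact mul_le_one₀ (mul_le_one₀ (hβ Q _) (abs_nonneg _) h2) (abs_nonneg _) h3)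
    have h4 : ((Fintype.card ι : ℝ) + 1) * (ε / 6 / (K + 2) * N) = ε / 6 * N := by
      rw [hK]
      push_cast
      field_simp
      ring
    rw [h4] at h1
    exact h1
  refine (expect_le_expect hcut).trans ?_
  rw [expect_add_distrib, expect_const hne']
  have a1 : 2 * ((Z : ℝ) * S) ≤ ε / 6 * N := by
    have : 2 * (Z : ℝ) * (ε / 6 / (2 * Z) * N) = ε / 6 * N := by field_simp
    nlinarith
  have a2 : 2 * (H : ℝ) ≤ ε / 6 * N := by
    rw [div_le_iff₀ (by positivity)] at hN1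
    linarith
  have a3 : 6 * (N : ℝ) * (((K : ℝ) + 1) / 2 ^ R + θ ^ 2) ≤ θ * (ε / 3 * N) := by
    have : θ * (ε / 3 * N) = 6 * (N : ℝ) * (θ ^ 2 + θ ^ 2) := by rw [hθe]; ring
    rw [this]
    exact mul_le_mul_of_nonneg_left (by linarith) (by positivity)
  have a4 : (2 : ℝ) ^ ((K + 1) * m) * Z * N * (1 + 1) / H ≤ θ * (ε / 6 * N) := by
    rw [div_le_iff₀ (by positivity)] at hH2
    rw [div_le_iff₀ hH0]
    nlinarith
  have a5 : θ * (2 * ((Z : ℝ) * S + H)) ≤ θ * (ε / 3 * N) :=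
    mul_le_mul_of_nonneg_left (by linarith) hθ.le
  have a6 := le_of_mul_le_mul_left (key.trans (show _ ≤ θ * (5 * ε / 6 * N) by linarith)) hθ
  linarith

end Pool.Agent.Z60

end
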