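import Pool.Agent.MP_a4a062_nt.Z60.Defs

/-! h60z row IND. -/

set_option autoImplicit false

open Finset Filter
open scoped Classical BigOperators

noncomputable section
namespace Pool.Agent.Z60

theorem ind_per {P : ℕ} (hP : 0 < P) (f : ℕ → ℝ) (h0 : ∀ x, 0 ≤ f x) (hf : ∀ x, f (P + x) = f x)
    (X : ℕ) : ∑ x ∈ range X, f x ≤ ((X : ℝ) / P + 1) * ∑ x ∈ range P, f x := by
  have h1 : ∀ j : ℕ, ∑ x ∈ range (P * j), f x = j * ∑ x ∈ range P, f x := fun j => by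
    induction j with
    | zero => simp
    | succ j ih =>
      rw [Nat.mul_succ, add_comm, sum_range_add]
      simp only [hf]
      rw [ih]
      push_cast
      ring
  have h2 : X ≤ P * (X / P + 1) := (Nat.lt_mul_div_succ X hP).le
  refine (sum_le_sum_of_subset_of_nonneg (range_subset_range.2 h2) fun x _ _ => h0 x).trans ?_
  rw [h1]
  refine mul_le_mul_of_nonneg_right ?_ (sum_nonneg fun x _ => h0 x)
  push_cast
  exact add_le_add Nat.cast_div_le le_rfl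

theorem ind_zero {P Z S V : ℕ} (hP : P.Prime) (hZ : ¬ P ∣ Z) (hS : S ≤ P) {W : Finset ℕ}
    (hW : W ⊆ range V) (x : ℕ) : #{s ∈ range S | ∃ w ∈ W, P ∣ x + Z * s + w} ≤ V := by
  have hsub : {s ∈ range S | ∃ w ∈ W, P ∣ x + Z * s + w} ⊆
      W.biUnion fun w => {s ∈ range S | P ∣ x + Z * s + w} := by
    intro s hs
    obtain ⟨h1, w, hw, h2⟩ := mem_filter.1 hs
    exact mem_biUnion.2 ⟨w, hw, mem_filter.2 ⟨h1, h2⟩⟩
  refine (card_le_card hsub).trans (card_biUnion_le.trans ?_)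
  refine (sum_le_card_nsmul _ _ 1 fun w _ => card_le_one.2 fun s hs t ht => ?_).trans ?_
  · obtain ⟨s1, s2⟩ := mem_filter.1 hs
    obtain ⟨t1, t2⟩ := mem_filter.1 ht
    have h3 : (P : ℤ) ∣ (Z : ℤ) * ((s : ℤ) - t) := by
      have := dvd_sub (Int.natCast_dvd_natCast.2 s2) (Int.natCast_dvd_natCast.2 t2)
      push_cast at this
      rwa [show (x : ℤ) + Z * s + w - (x + Z * t + w) = Z * (s - t) by ring] at this
    have h4 : (P : ℤ) ∣ (s : ℤ) - t :=
      ((Nat.prime_iff_prime_int.1 hP).dvd_or_dvd h3).resolve_left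
        fun h => hZ (Int.natCast_dvd_natCast.1 h)
    have h5 := mem_range.1 s1
    have h6 := mem_range.1 t1
    have h7 := Int.eq_zero_of_abs_lt_dvd h4 (abs_lt.2 ⟨by omega, by omega⟩)
    omega
  · rw [smul_eq_mul, mul_one]
    exact (card_le_card hW).trans_eq (card_range V)

theorem ind_sg (P : ℕ) [Fact P.Prime] (u : ℕ) : |sg P u| ≤ 1 := by
  unfold sg
  split_ifs with h
  · simp
  · have h1 : ((u : ℤ) : ZMod P) ≠ 0 := by
      rw [Int.cast_natCast, Ne, ZMod.natCast_eq_zero_iff]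
      exact h
    rcases legendreSym.eq_one_or_neg_one P h1 with e | e <;> simp [e]

theorem ind_cmp {P Z S V : ℕ} [Fact P.Prime] (hZ : ¬ P ∣ Z) (hS : S ≤ P) {W : Finset ℕ}
    (hW : W ⊆ range V) (x : ℕ) : |𝔼 s ∈ range S, ∏ w ∈ W, sg P (x + Z * s + w)| ≤ (V : ℝ) / S +
      |𝔼 s ∈ range S, ∏ w ∈ W, (legendreSym P ((x + Z * s + w : ℕ) : ℤ) : ℝ)| := by
  have h1 : ∀ s, |∏ w ∈ W, sg P (x + Z * s + w) -
      ∏ w ∈ W, (legendreSym P ((x + Z * s + w : ℕ) : ℤ) : ℝ)| ≤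
        if ∃ w ∈ W, P ∣ x + Z * s + w then (1 : ℝ) else 0 := fun s => by
    split_ifs with h
    · obtain ⟨w, hw, hd⟩ := h
      have e : legendreSym P ((x + Z * s + w : ℕ) : ℤ) = 0 := by
        rw [legendreSym.eq_zero_iff, Int.cast_natCast, ZMod.natCast_eq_zero_iff]
        exact hd
      rw [prod_eq_zero hw (f := fun w => (legendreSym P ((x + Z * s + w : ℕ) : ℤ) : ℝ))
        (by rw [e, Int.cast_zero]), sub_zero, abs_prod]
      exact prod_le_one (fun _ _ => abs_nonneg _) fun _ _ => ind_sg P _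
    · have e : ∏ w ∈ W, sg P (x + Z * s + w) =
          ∏ w ∈ W, (legendreSym P ((x + Z * s + w : ℕ) : ℤ) : ℝ) :=
        prod_congr rfl fun w hw => if_neg fun hd => h ⟨w, hw, hd⟩
      rw [e, sub_self, abs_zero]
  have h2 : |𝔼 s ∈ range S, ∏ w ∈ W, sg P (x + Z * s + w) -
      𝔼 s ∈ range S, ∏ w ∈ W, (legendreSym P ((x + Z * s + w : ℕ) : ℤ) : ℝ)| ≤ (V : ℝ) / S := by
    rw [← expect_sub_distrib, expect_eq_sum_div_card, card_range, abs_div, Nat.abs_cast]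
    refine div_le_div_of_nonneg_right ?_ (Nat.cast_nonneg S)
    refine (abs_sum_le_sum_abs _ _).trans ((sum_le_sum fun s _ => h1 s).trans ?_)
    rw [sum_boole]
    exact_mod_cast ind_zero Fact.out hZ hS hW x
  have h3 := abs_sub_abs_le_abs_sub (𝔼 s ∈ range S, ∏ w ∈ W, sg P (x + Z * s + w))
    (𝔼 s ∈ range S, ∏ w ∈ W, (legendreSym P ((x + Z * s + w : ℕ) : ℤ) : ℝ))
  linarith

theorem ind_sq (hM : MOM_s) {P Z S V D X : ℕ} [Fact P.Prime] {u : ℝ} (hu : 0 < u) (h2 : P ≠ 2)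
    (hZ : ¬ P ∣ Z) (hV : V ≤ P) (hS : S ≤ P) (hS0 : 0 < S) (hD : 10 * (V : ℝ) ≤ D * u)
    (hDS : D ≤ S) (hDP : D ^ 2 ≤ P) (hSX : (P : ℝ) * D ≤ S * X) (hX : D ^ 2 * P ≤ X ^ 2)
    {W : Finset ℕ} (hW : W ⊆ range V) (hne : W.Nonempty) :
    ∑ x ∈ range X, (𝔼 s ∈ range S, ∏ w ∈ W,
      (legendreSym P ((x + Z * s + w : ℕ) : ℤ) : ℝ)) ^ 2 ≤ 4 * u * X := by
  have hP : 0 < P := (Fact.out : P.Prime).pos
  have hPr : (0 : ℝ) < P := by exact_mod_cast hP
  have hSr : (0 : ℝ) < S := by exact_mod_cast hS0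
  have hVr : (0 : ℝ) ≤ V := Nat.cast_nonneg V
  have hXr : (0 : ℝ) ≤ X := Nat.cast_nonneg X
  have hDr : (0 : ℝ) ≤ D := Nat.cast_nonneg D
  have m := hM P Z S V W h2 hZ hW hne hV hS
  refine (ind_per hP _ (fun _ => sq_nonneg _) (fun x => ?_) X).trans ?_
  · congr 1
    refine expect_congr rfl fun s _ => prod_congr rfl fun w _ => ?_
    congr 1
    unfold legendreSym
    congr 1
    push_cast
    rw [ZMod.natCast_self, zero_add]
  simp only [expect_eq_sum_div_card, card_range, div_pow]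
  rw [← sum_div]
  have r0 : 0 ≤ √(P : ℝ) := Real.sqrt_nonneg _
  have r1 : √(P : ℝ) * √(P : ℝ) = P := Real.mul_self_sqrt hPr.le
  have r2 : (D : ℝ) ≤ √(P : ℝ) := Real.le_sqrt_of_sq_le (by exact_mod_cast hDP)
  have r3 : (D : ℝ) * √(P : ℝ) ≤ X := by
    refine abs_le_of_sq_le_sq' ?_ hXr |>.2
    rw [mul_pow, Real.sq_sqrt hPr.le]
    exact_mod_cast hX
  have r4 : (D : ℝ) ≤ S := by exact_mod_cast hDS
  have hV' : (V : ℝ) ≤ D * u := by linarith
  have a1 : (V : ℝ) / S ≤ u := by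
    rw [div_le_iff₀ hSr]
    nlinarith
  have a2 : 10 * (V : ℝ) * √(P : ℝ) / P ≤ u := by
    rw [div_le_iff₀ hPr]
    calc 10 * (V : ℝ) * √(P : ℝ) ≤ D * u * √(P : ℝ) := mul_le_mul_of_nonneg_right hD r0
      _ ≤ √(P : ℝ) * u * √(P : ℝ) := by gcongr
      _ = u * P := by linear_combination u * r1
  have a3 : (V : ℝ) * P / S ≤ u * X := by
    rw [div_le_iff₀ hSr]
    calc (V : ℝ) * P ≤ D * u * P := mul_le_mul_of_nonneg_right hV' hPr.le
      _ = u * (P * D) := by ring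
      _ ≤ u * (S * X) := mul_le_mul_of_nonneg_left hSX hu.le
      _ = u * X * S := by ring
  have a4 : 10 * (V : ℝ) * √(P : ℝ) ≤ u * X :=
    calc 10 * (V : ℝ) * √(P : ℝ) ≤ D * u * √(P : ℝ) := mul_le_mul_of_nonneg_right hD r0
      _ = u * (D * √(P : ℝ)) := by ring
      _ ≤ u * X := mul_le_mul_of_nonneg_left r3 hu.le
  calc _ ≤ ((X : ℝ) / P + 1) * (((V : ℝ) * S * P + 10 * V * (S : ℝ) ^ 2 * √(P : ℝ)) / S ^ 2) := by
        gcongr
    _ = X * ((V : ℝ) / S) + X * (10 * (V : ℝ) * √(P : ℝ) / P) + (V : ℝ) * P / S +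
        10 * (V : ℝ) * √(P : ℝ) := by
        field_simp
        ring
    _ ≤ X * u + X * u + u * X + u * X := by gcongr
    _ = 4 * u * X := by ring

theorem ind_row (hM : MOM_s) : IND_s := by
  intro Z V η c hZ hη hc
  obtain ⟨t, ht, ht'⟩ : ∃ t : ℝ, 0 < t ∧ 2 ^ V * t = η / 2 :=
    ⟨η / 2 / 2 ^ V, by positivity, by field_simp⟩
  obtain ⟨u, hu, hu1, hu2⟩ : ∃ u : ℝ, 0 < u ∧ u ≤ η / 2 ∧ 4 * u ≤ t ^ 2 :=
    ⟨min (η / 2) (t ^ 2 / 4), by positivity, min_le_left _ _, by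
      have := min_le_right (η / 2) (t ^ 2 / 4); linarith⟩
  obtain ⟨D, hD1, hD⟩ : ∃ D : ℕ, 1 ≤ D ∧ 10 * (V : ℝ) ≤ D * u := by
    obtain ⟨D, hD⟩ := exists_nat_ge (10 * (V : ℝ) / u)
    rw [div_le_iff₀ hu] at hD
    refine ⟨D + 1, by omega, ?_⟩
    push_cast
    linarith
  obtain ⟨E, hE1, hE⟩ : ∃ E : ℕ, D ≤ E ∧ 2 * (D : ℝ) ≤ E * c := by
    obtain ⟨E, hE⟩ := exists_nat_ge (2 * (D : ℝ) / c)
    rw [div_le_iff₀ hc] at hE
    refine ⟨E + D, by omega, ?_⟩
    push_cast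
    have : 0 ≤ (D : ℝ) * c := by positivity
    linarith
  refine ⟨D ^ 2 + Z + V + 3, E ^ 2, fun P _ hP N hN => ?_⟩
  have hP1 : 1 ≤ P := by omega
  have hEN : E ≤ N := by
    refine (pow_le_pow_iff_left₀ (Nat.zero_le _) (Nat.zero_le _) two_ne_zero).1 ?_
    exact (Nat.le_mul_of_pos_right _ hP1).trans hN
  have hD1r : (1 : ℝ) ≤ D := by exact_mod_cast hD1
  have hENr : (E : ℝ) ≤ N := by exact_mod_cast hEN
  have hE1r : (1 : ℝ) ≤ E := by exact_mod_cast hD1.trans hE1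
  have hcN : 2 * (D : ℝ) ≤ c * N := by nlinarith
  have hDD : D ≤ D ^ 2 := Nat.le_self_pow two_ne_zero D
  have hDS : D ≤ min P ⌊c * N⌋₊ := le_min (by omega) (Nat.le_floor (by linarith))
  have hZP : ¬ P ∣ Z := Nat.not_dvd_of_pos_of_lt hZ (by omega)
  have hfl : ((min P ⌊c * N⌋₊ : ℕ) : ℝ) ≤ c * N :=
    (Nat.cast_le.2 (min_le_right _ _)).trans (Nat.floor_le (by linarith))
  have hSX : ∀ X : ℕ, N ≤ X → (P : ℝ) * D ≤ (min P ⌊c * N⌋₊ : ℕ) * X := fun X hX => by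
    have hXr : (N : ℝ) ≤ X := by exact_mod_cast hX
    rcases min_choice P ⌊c * N⌋₊ with e | e <;> rw [e]
    · exact mul_le_mul_of_nonneg_left (by exact_mod_cast hE1.trans (hEN.trans hX))
        (Nat.cast_nonneg P)
    · have h1 := Nat.lt_floor_add_one (c * N)
      have h2 : c * N / 2 ≤ ⌊c * N⌋₊ := by linarith
      have h3 : (E : ℝ) ^ 2 * P ≤ (N : ℝ) ^ 2 := by exact_mod_cast hN
      have h4 : (0 : ℝ) ≤ P := Nat.cast_nonneg P
      calc (P : ℝ) * D ≤ P * (E * c / 2) := mul_le_mul_of_nonneg_left (by linarith) h4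
        _ ≤ P * (E ^ 2 * c / 2) := by
          gcongr
          nlinarith
        _ = c / 2 * (E ^ 2 * P) := by ring
        _ ≤ c / 2 * N ^ 2 := by gcongr
        _ = c * N / 2 * N := by ring
        _ ≤ ⌊c * N⌋₊ * X := by gcongr
  have hSP : min P ⌊c * N⌋₊ ≤ P := min_le_left _ _
  generalize min P ⌊c * N⌋₊ = S at hDS hfl hSX hSP
  have hS0 : 0 < S := by omega
  refine ⟨S, hS0, hfl, fun x => (V : ℝ) / S + ∑ W ∈ (range V).powerset with W.Nonempty,
    |𝔼 s ∈ range S, ∏ w ∈ W, (legendreSym P ((x + Z * s + w : ℕ) : ℤ) : ℝ)|,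
    fun x => by positivity, fun X hX => ?_, fun x W hW hne => ?_⟩
  · have hXr : (0 : ℝ) ≤ X := Nat.cast_nonneg X
    have a1 : (V : ℝ) / S ≤ η / 2 := by
      have h1 : (D : ℝ) ≤ S := by exact_mod_cast hDS
      have h2 : (0 : ℝ) ≤ V := Nat.cast_nonneg V
      rw [div_le_iff₀ (by linarith)]
      calc (V : ℝ) ≤ D * u := by linarith
        _ ≤ S * (η / 2) := by gcongr
        _ = η / 2 * S := by ring
    have a2 : ∀ W ∈ {W ∈ (range V).powerset | W.Nonempty}, ∑ x ∈ range X,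
        |𝔼 s ∈ range S, ∏ w ∈ W, (legendreSym P ((x + Z * s + w : ℕ) : ℤ) : ℝ)| ≤ t * X := by
      intro W hW
      obtain ⟨h1, h2⟩ := mem_filter.1 hW
      have q := ind_sq hM (X := X) hu (by omega) hZP (by omega) hSP hS0 hD hDS (by omega)
        (hSX X hX) ((Nat.mul_le_mul_right P (Nat.pow_le_pow_left hE1 2)).trans
          (hN.trans (Nat.pow_le_pow_left hX 2))) (mem_powerset.1 h1) h2
      have h3 : ∀ y : ℝ, |y| ≤ t / 2 + y ^ 2 / (2 * t) := fun y => by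
        rw [← sq_abs y, ← sub_le_iff_le_add', le_div_iff₀ (by positivity)]
        nlinarith [sq_nonneg (|y| - t)]
      refine (sum_le_sum fun x _ => h3 _).trans ?_
      rw [sum_add_distrib, sum_const, card_range, nsmul_eq_mul, ← sum_div]
      have h4 := (div_le_iff₀ (by positivity : 0 < 2 * t)).2
        (q.trans (by nlinarith : 4 * u * X ≤ t / 2 * X * (2 * t)))
      linarith
    rw [sum_add_distrib, sum_const, card_range, nsmul_eq_mul, sum_comm]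
    have a3 := sum_le_card_nsmul _ _ _ a2
    have a4 : (#{W ∈ (range V).powerset | W.Nonempty} : ℝ) ≤ 2 ^ V := by
      have := card_filter_le (range V).powerset fun W => W.Nonempty
      rw [card_powerset, card_range] at this
      exact_mod_cast this
    rw [nsmul_eq_mul] at a3
    have a5 := mul_le_mul_of_nonneg_right a4 (by positivity : 0 ≤ t * X)
    have a6 := mul_le_mul_of_nonneg_left a1 hXr
    rw [← mul_assoc (2 ^ V : ℝ), ht'] at a5
    linarith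
  · refine (ind_cmp hZP hSP hW x).trans (add_le_add le_rfl ?_)
    exact single_le_sum (f := fun W : Finset ℕ =>
      |𝔼 s ∈ range S, ∏ w ∈ W, (legendreSym P ((x + Z * s + w : ℕ) : ℤ) : ℝ)|)
      (fun _ _ => abs_nonneg _) (mem_filter.2 ⟨mem_powerset.2 hW, hne⟩)

end Pool.Agent.Z60

end
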