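import Pool.Agent.MP_a4a062_nt.Z60.Defs

/-! h60z row LOC. -/

set_option autoImplicit false

open Finset Filter
open scoped Classical BigOperators

noncomputable section
namespace Pool.Agent.Z60

theorem loc_pos {l : ℕ} {B : Fin l → Finset ℕ} (hB : Pr B) {Q : Fin l → ℕ} (hQ : Q ∈ tup B) :
    0 < ∏ j, Q j := prod_pos fun j _ => (hB.2.1 j _ (Fintype.mem_piFinset.1 hQ j)).pos

theorem loc_inj {l : ℕ} {B : Fin l → Finset ℕ} (hB : Pr B) {Q Q' : Fin l → ℕ} (hQ : Q ∈ tup B)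
    (hQ' : Q' ∈ tup B) (h : ∏ j, Q j = ∏ j, Q' j) : Q = Q' := by
  refine _root_.funext fun j => ?_
  have hj := Fintype.mem_piFinset.1 hQ j
  have hp : (Q j).Prime := hB.2.1 j _ hj
  have hd : Q j ∣ ∏ i, Q' i := h ▸ dvd_prod_of_mem _ (mem_univ j)
  obtain ⟨i, -, hi⟩ := (Prime.dvd_finsetProd_iff hp.prime _).1 hd
  have hi' := Fintype.mem_piFinset.1 hQ' i
  have e : Q j = Q' i := (Nat.prime_dvd_prime_iff_eq hp (hB.2.1 i _ hi')).1 hi
  have hji : j = i := hB.2.2 j i (Q j) hj (e ▸ hi')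
  subst hji
  exact e

theorem loc_cnt (hC : CNT_s) {a H L x : ℕ} (ha : 0 < a) (hL : L + a ≤ 2 * H) :
    (#{t : Fin L | a ∣ x + t.1} : ℝ) ≤ 2 * (H : ℝ) / a := by
  have h1 := (abs_le.1 (hC L x a ha)).2
  have h2 : #{t : Fin L | a ∣ x + t.1} ≤ #{n ∈ range L | a ∣ n + x} := by
    refine card_le_card_of_injOn (fun t => t.1) ?_ fun _ _ _ _ h => Fin.ext h
    intro t ht
    have := (mem_filter.1 (mem_coe.1 ht)).2
    exact mem_coe.2 (mem_filter.2 ⟨mem_range.2 t.2, by rwa [add_comm]⟩)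
  have h3 : (#{t : Fin L | a ∣ x + t.1} : ℝ) ≤ #{n ∈ range L | a ∣ n + x} := by exact_mod_cast h2
  have ha' : (0 : ℝ) < a := by exact_mod_cast ha
  have h4 : (L : ℝ) + a ≤ 2 * H := by exact_mod_cast hL
  have h5 : (L : ℝ) / a + 1 ≤ 2 * (H : ℝ) / a := by
    rw [div_add_one ha'.ne']
    exact div_le_div_of_nonneg_right h4 ha'.le
  linarith

theorem loc_row (hC : CNT_s) (habs : Pool.Agent.K60.ABS_s) : LOC_s := by
  intro ι _ K l m R N x H G h₀ B h T φ σ A θ η hK hB hh hH hT hθ hη hφ hφ' hσ hA hind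
  set E2 : ℝ := ∑ Q ∈ tup B with x ≤ 2 * ((∏ j, Q j) * N), 2 * (H : ℝ) / ((∏ j, Q j : ℕ) : ℝ)
    with hE2
  have hw : ∀ e : ↥(tup B) × Fin H, e.2.1 + (∏ j, e.1.1 j) * h₀ < H + G := fun e => by
    have := (hH _ e.1.2).2.1
    have := e.2.2
    omega
  have hv : ∀ (i : ι) (e : ↥(tup B) × Fin H), e.2.1 + (∏ j, e.1.1 j) * h i < H + G := fun i e => by
    have := (hH _ e.1.2).2.2 i
    have := e.2.2
    omega
  choose A' hA' hle using fun s => Pool.Agent.K60.locv_all (univ : Finset (↥(tup B) × Fin H))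
    (fun e => φ e.1.1 e.2.1 * σ s (e.2.1 + (∏ j, e.1.1 j) * h₀))
    (fun i e => e.2.1 + (∏ j, e.1.1 j) * h i) (A s) (hA s)
  set Ed : Finset (↥(tup B) × Fin H) := {e | φ e.1.1 e.2.1 ≠ 0} with hEd
  have hmem : ∀ e ∈ Ed, φ e.1.1 e.2.1 ≠ 0 := fun e he => (Finset.mem_filter.1 he).2
  have hc2 : (#Ed : ℝ) ≤ #(tup B) * H := by
    have := Finset.card_le_univ Ed
    rw [Fintype.card_prod, Fintype.card_coe, Fintype.card_fin] at this
    exact_mod_cast this
  have hdc : ∀ L : ℕ, L ≤ H + G →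
      (∑ t : Fin L, (#{Q ∈ tup B | ∏ j, Q j ∣ x + t.1 ∧ x ≤ 2 * ((∏ j, Q j) * N)} : ℝ)) ≤ E2 := by
    intro L hL
    have e1 : ∀ t : Fin L, (#{Q ∈ tup B | ∏ j, Q j ∣ x + t.1 ∧ x ≤ 2 * ((∏ j, Q j) * N)} : ℝ) =
        ∑ Q ∈ tup B with x ≤ 2 * ((∏ j, Q j) * N), if ∏ j, Q j ∣ x + t.1 then (1 : ℝ) else 0 := by
      intro t
      rw [Finset.sum_boole, Finset.filter_filter]
      congr 2
      exact filter_congr fun Q _ => and_comm
    simp only [e1]
    rw [Finset.sum_comm]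
    refine Finset.sum_le_sum fun Q hQ => ?_
    have hQ' := (mem_filter.1 hQ).1
    rw [Finset.sum_boole]
    refine loc_cnt hC (loc_pos hB hQ') ?_
    have := (hH Q hQ').1
    omega
  have hc1 : (#Ed : ℝ) ≤ E2 := by
    refine le_trans ?_ (hdc H (Nat.le_add_right _ _))
    rw [Finset.card_eq_sum_card_fiberwise (f := fun e => e.2) (t := univ)
      (fun _ _ => Finset.mem_coe.2 (Finset.mem_univ _))]
    push_cast
    refine Finset.sum_le_sum fun t _ => ?_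
    refine Nat.cast_le.2 (Finset.card_le_card_of_injOn (fun e => e.1.1) ?_ ?_)
    · intro e he
      obtain ⟨h1, h2⟩ := mem_filter.1 (mem_coe.1 he)
      obtain ⟨h3, h4, -⟩ := hφ' _ e.1.2 _ (hmem e h1)
      refine mem_coe.2 (mem_filter.2 ⟨e.1.2, ?_, ?_⟩)
      · rw [← h2]; exact h3
      · exact h4.trans (Nat.le_mul_of_pos_left _ two_pos)
    · intro e he e' he' h
      have h1 := (mem_filter.1 (mem_coe.1 he)).2
      have h2 := (mem_filter.1 (mem_coe.1 he')).2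
      exact Prod.ext (Subtype.ext h) (h1.trans h2.symm)
  have hfib : ∀ (u : ℕ) (S : Finset (↥(tup B) × Fin H)),
      (∀ e ∈ S, e ∈ Ed ∧ e.2.1 + (∏ j, e.1.1 j) * h₀ = u) → #S ≤ tau B (x + u) := fun u S hS => by
    refine Finset.card_le_card_of_injOn (fun e' => e'.1.1) ?_ ?_
    · intro e' he'
      obtain ⟨h1, h2⟩ := hS e' (mem_coe.1 he')
      refine mem_coe.2 (mem_filter.2 ⟨e'.1.2, ?_⟩)
      rw [← h2, ← add_assoc]
      exact dvd_add (hφ' _ e'.1.2 _ (hmem e' h1)).1 (dvd_mul_right _ _)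
    · intro a ha b hb hab
      have h1 := (hS a (mem_coe.1 ha)).2
      have h2 := (hS b (mem_coe.1 hb)).2
      have h3 : a.1.1 = b.1.1 := hab
      rw [← h2, h3] at h1
      exact Prod.ext (Subtype.ext h3) (Fin.ext (Nat.add_right_cancel h1))
  have main := habs ι (Fin (H + G)) (↥(tup B) × Fin H) ℕ Ed T
    (fun e => ⟨e.2.1 + (∏ j, e.1.1 j) * h₀, hw e⟩)
    (fun i e => ⟨e.2.1 + (∏ j, e.1.1 j) * h i, hv i e⟩) (fun e => φ e.1.1 e.2.1)
    (fun _ => 1) (fun s u => σ s u.1) (fun s i u => A' s i u.1) θ η (E2 / 2 ^ (K * m + R))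
    (2 ^ m) K hK (by positivity) ?_ ?_ ?_ hT hθ hη (fun e => hφ _ _) (fun _ => by simp)
    (fun s u => hσ _ _) (fun s i u => hA' _ _ _) ?_
  · have e1 : ∀ s : ℕ, ∑ Q ∈ tup B, ∑ t ∈ range H,
        φ Q t * σ s (t + (∏ j, Q j) * h₀) * ∏ i, A s i (t + (∏ j, Q j) * h i) ≤
        ∑ e ∈ Ed, φ e.1.1 e.2.1 * 1 * σ s (e.2.1 + (∏ j, e.1.1 j) * h₀) *
          ∏ i, A' s i (e.2.1 + (∏ j, e.1.1 j) * h i) := fun s => by
      have e0 : ∑ e ∈ Ed, φ e.1.1 e.2.1 * 1 * σ s (e.2.1 + (∏ j, e.1.1 j) * h₀) *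
          ∏ i, A' s i (e.2.1 + (∏ j, e.1.1 j) * h i) =
          ∑ e : ↥(tup B) × Fin H, φ e.1.1 e.2.1 * σ s (e.2.1 + (∏ j, e.1.1 j) * h₀) *
          ∏ i, A' s i (e.2.1 + (∏ j, e.1.1 j) * h i) := by
        simp only [mul_one]
        refine Finset.sum_subset (Finset.subset_univ _) fun e _ he => ?_
        have : φ e.1.1 e.2.1 = 0 := by
          by_contra h
          exact he (Finset.mem_filter.2 ⟨Finset.mem_univ _, h⟩)
        rw [this]; simp
      rw [e0]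
      refine le_trans (le_of_eq ?_) (hle s)
      rw [Fintype.sum_prod_type, ← Finset.sum_coe_sort (tup B)]
      refine Finset.sum_congr rfl fun Q _ => ?_
      rw [Finset.sum_range]
    have e2 := mul_le_mul_of_nonneg_left
      (Finset.expect_le_expect (s := T) fun s _ => e1 s) hθ.le
    refine e2.trans (le_trans main ?_)
    have e3 : (((2 ^ m : ℕ) : ℝ)) ^ (K + 1) = 2 ^ ((K + 1) * m) := by
      push_cast; rw [← pow_mul, mul_comm]
    have e4 : (K + 1) * (((2 ^ m : ℕ) : ℝ)) ^ K * (E2 / 2 ^ (K * m + R)) =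
        (K + 1) / 2 ^ R * E2 := by
      push_cast; rw [← pow_mul, mul_comm m K, pow_add]; field_simp
    have e6 : Real.exp (θ * #Ed) ≤ Real.exp (θ * (#(tup B) * H)) :=
      Real.exp_le_exp.2 (mul_le_mul_of_nonneg_left hc2 hθ.le)
    rw [e3, e4]
    have e8 : η * 2 ^ ((K + 1) * m) * Real.exp (θ * #Ed) ≤
        η * 2 ^ ((K + 1) * m) * Real.exp (θ * (#(tup B) * H)) :=
      mul_le_mul_of_nonneg_left e6 (by positivity)
    have e9 : θ ^ 2 * (#Ed : ℝ) ≤ θ ^ 2 * E2 := mul_le_mul_of_nonneg_left hc1 (by positivity)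
    nlinarith
  · intro e _ e' _ hne hw' i hv'
    have h1 : e.2.1 + (∏ j, e.1.1 j) * h i = e'.2.1 + (∏ j, e'.1.1 j) * h i :=
      congrArg Fin.val hv'
    have h2 : e.2.1 + (∏ j, e.1.1 j) * h₀ = e'.2.1 + (∏ j, e'.1.1 j) * h₀ :=
      congrArg Fin.val hw'
    have h3 : ∏ j, e.1.1 j = ∏ j, e'.1.1 j := by
      generalize ∏ j, e.1.1 j = a at h1 h2
      generalize ∏ j, e'.1.1 j = a' at h1 h2
      have h4 : ((a : ℤ) - a') * ((h i : ℤ) - h₀) = 0 := by
        have h1' := congrArg (Nat.cast : ℕ → ℤ) h1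
        have h2' := congrArg (Nat.cast : ℕ → ℤ) h2
        push_cast at h1' h2'
        linarith
      rcases mul_eq_zero.1 h4 with h5 | h5
      · exact_mod_cast sub_eq_zero.1 h5
      · exact absurd (by exact_mod_cast sub_eq_zero.1 h5) (hh i)
    rw [h3] at h2
    exact hne (Prod.ext (Subtype.ext (loc_inj hB e.1.2 e'.1.2 h3))
      (Fin.ext (Nat.add_right_cancel h2)))
  · intro e he
    have h0 := (hφ' _ e.1.2 _ (hmem e he)).2.2.1
    rw [← pow_mul, mul_comm m]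
    rw [add_assoc] at h0
    exact (hfib _ _ fun e' he' => by simpa only [mem_filter, Fin.mk.injEq] using he').trans h0
  · intro i
    rw [le_div_iff₀ (by positivity), ← nsmul_eq_mul, ← Finset.sum_const]
    refine le_trans ((Finset.sum_le_sum ?_).trans
      (Finset.sum_le_sum_of_subset_of_nonneg (Finset.subset_univ _) fun _ _ _ => by positivity))
      (hdc (H + G) le_rfl)
    intro u hu
    simp only [Finset.mem_image] at hu
    obtain ⟨e, he, rfl⟩ := hu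
    obtain ⟨-, h1, -, h2⟩ := hφ' _ e.1.2 _ (hmem e he)
    have h3 : tau2 B (∏ j, e.1.1 j) (x + e.2.1 + (∏ j, e.1.1 j) * h i) ≤
        #{Q ∈ tup B | ∏ j, Q j ∣ x + (e.2.1 + (∏ j, e.1.1 j) * h i) ∧
          x ≤ 2 * ((∏ j, Q j) * N)} := by
      refine card_le_card fun Q hQ => ?_
      obtain ⟨a1, a2, a3⟩ := mem_filter.1 hQ
      refine mem_filter.2 ⟨a1, by rwa [← add_assoc], h1.trans ?_⟩
      rw [← mul_assoc]
      exact Nat.mul_le_mul_right _ a3
    exact_mod_cast (h2 i).trans h3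
  · intro S hS _
    have := hind (S.map Fin.valEmbedding) ?_ (Finset.map_nonempty.2 hS)
    · simpa only [Finset.prod_map, Fin.valEmbedding_apply] using this
    · intro u hu
      obtain ⟨a, _, rfl⟩ := Finset.mem_map.1 hu
      exact mem_range.2 a.2

end Pool.Agent.Z60

end
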