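import Pool.Agent.MP_a4a062_nt.Z60.Defs

/-! h60z row MOM. -/

set_option autoImplicit false

open Finset Filter
open scoped Classical BigOperators

noncomputable section
namespace Pool.Agent.Z60

theorem mom_chi (P : ℕ) [Fact P.Prime] (n : ℕ) :
    (legendreSym P (n : ℤ) : ℝ) = H48P.chi (n : ZMod P) := by
  unfold legendreSym H48P.chi
  rw [Int.cast_natCast]
  congr
  exact Subsingleton.elim _ _

theorem mom_sum (P : ℕ) [Fact P.Prime] (g : ZMod P → ℝ) :
    ∑ x ∈ range P, g (x : ZMod P) = ∑ u : ZMod P, g u := by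
  refine sum_nbij' (fun x => (x : ZMod P)) ZMod.val (fun _ _ => mem_univ _)
    (fun u _ => mem_range.2 (ZMod.val_lt u)) (fun x hx => ?_) (fun u _ => ZMod.natCast_zmod_val u)
    fun _ _ => rfl
  exact ZMod.val_cast_of_lt (mem_range.1 hx)

theorem mom_inj (P : ℕ) [Fact P.Prime] {a b : ℕ} (ha : a < P) (hb : b < P)
    (h : (a : ZMod P) = b) : a = b := by
  rw [← ZMod.val_cast_of_lt ha, ← ZMod.val_cast_of_lt hb, h]

theorem mom_row : MOM_s := by
  intro P _ Z S V W h2 hZ hW ⟨w₀, hw₀⟩ hV hS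
  have hWc : #W ≤ V := (card_le_card hW).trans (card_range V).le
  have hWl : ∀ w ∈ W, w < P := fun w hw => (mem_range.1 (hW hw)).trans_le hV
  have h2' : (2 : ZMod P) ≠ 0 := fun e => h2
    ((Nat.prime_dvd_prime_iff_eq Fact.out Nat.prime_two).1
      ((ZMod.natCast_eq_zero_iff 2 P).1 (by exact_mod_cast e)))
  have hZ' : (Z : ZMod P) ≠ 0 := fun e => hZ ((ZMod.natCast_eq_zero_iff Z P).1 e)
  let f : ZMod P → ℕ → ℝ := fun u s => ∏ w ∈ W, H48P.chi (u + ((Z : ZMod P) * s + w))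
  have hf : ∀ u s, |f u s| ≤ 1 := fun u s => by
    rw [abs_prod]
    exact prod_le_one (fun _ _ => abs_nonneg _) fun _ _ => H48P.abs_chi_le _
  have e1 : ∀ x : ℕ, (∑ s ∈ range S, ∏ w ∈ W,
      (legendreSym P ((x + Z * s + w : ℕ) : ℤ) : ℝ)) ^ 2 =
        ∑ s ∈ range S, ∑ s' ∈ range S, f x s * f x s' := fun x => by
    rw [← sum_mul_sum, ← sq]
    congr 1
    refine sum_congr rfl fun s _ => prod_congr rfl fun w _ => ?_
    rw [mom_chi]
    push_cast
    rw [add_assoc]
  have hsq : 0 ≤ √(P : ℝ) := Real.sqrt_nonneg _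
  have key : ∀ s s' : ℕ, ∑ u : ZMod P, f u s * f u s' ≤
      (if ∃ w ∈ W, (Z : ZMod P) * (s' : ℕ) + (w : ℕ) = Z * s + w₀ then (P : ℝ) else 0) +
        10 * V * √(P : ℝ) := by
    intro s s'
    split_ifs with h
    · have : ∑ u : ZMod P, f u s * f u s' ≤ ∑ _u : ZMod P, (1 : ℝ) := sum_le_sum fun u _ =>
        (le_abs_self _).trans (by
          rw [abs_mul]
          exact mul_le_one₀ (hf _ _) (abs_nonneg _) (hf _ _))
      rw [sum_const, card_univ, ZMod.card, nsmul_eq_mul, mul_one] at this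
      have h0 : 0 ≤ 10 * (V : ℝ) * √(P : ℝ) := by positivity
      linarith
    · have hc := H4O.chi_sub (K := ZMod P) (I := W ⊕ W) h2' ⊤
        (Sum.elim (fun w => (Z : ZMod P) * s + (w.1 : ℕ)) fun w => (Z : ZMod P) * s' + (w.1 : ℕ))
        (Sum.inl ⟨w₀, hw₀⟩) (by
          rintro (w | w) e
          · exact congrArg Sum.inl (Subtype.ext
              (mom_inj P (hWl _ w.2) (hWl _ hw₀) (add_left_cancel e)))
          · exact absurd ⟨w.1, w.2, e⟩ h)
      rw [filter_true_of_mem fun u _ => AddSubgroup.mem_top u, Fintype.card_sum, Fintype.card_coe,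
        ZMod.card] at hc
      have e2 : ∀ u : ZMod P, ∏ i : W ⊕ W, H48P.chi (u + Sum.elim
          (fun w : W => (Z : ZMod P) * s + (w.1 : ℕ)) (fun w : W => (Z : ZMod P) * s' + (w.1 : ℕ)) i)
            = f u s * f u s' := fun u => by
        rw [Fintype.prod_sum_type]
        exact congrArg₂ (· * ·)
          (prod_coe_sort W fun w => H48P.chi (u + ((Z : ZMod P) * s + (w : ℕ))))
          (prod_coe_sort W fun w => H48P.chi (u + ((Z : ZMod P) * s' + (w : ℕ))))
      rw [sum_congr rfl fun u _ => e2 u] at hc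
      have h1 : ((#W + #W : ℕ) : ℝ) ≤ 2 * V := by exact_mod_cast (by omega : #W + #W ≤ 2 * V)
      have h3 := mul_le_mul_of_nonneg_right h1 hsq
      have h4 := le_abs_self (∑ u : ZMod P, f u s * f u s')
      linarith
  have cnt : ∀ s : ℕ, #((range S).filter fun s' : ℕ =>
      ∃ w ∈ W, (Z : ZMod P) * (s' : ℕ) + (w : ℕ) = Z * s + w₀) ≤ V := by
    intro s
    have h1 : ((range S).filter fun s' : ℕ =>
      ∃ w ∈ W, (Z : ZMod P) * (s' : ℕ) + (w : ℕ) = Z * s + w₀) ⊆
        W.biUnion fun w : ℕ => (range S).filter fun s' : ℕ =>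
          (Z : ZMod P) * (s' : ℕ) + (w : ℕ) = Z * s + w₀ := fun s' hs' => by
      obtain ⟨h, w, hw, e⟩ := mem_filter.1 hs'
      exact mem_biUnion.2 ⟨w, hw, mem_filter.2 ⟨h, e⟩⟩
    refine (card_le_card h1).trans ((card_biUnion_le_card_mul _ _ 1 fun w _ => ?_).trans
      (by omega))
    refine card_le_one.2 fun a ha b hb => ?_
    obtain ⟨a1, a2⟩ := mem_filter.1 ha
    obtain ⟨b1, b2⟩ := mem_filter.1 hb
    exact mom_inj P ((mem_range.1 a1).trans_le hS) ((mem_range.1 b1).trans_le hS)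
      (mul_left_cancel₀ hZ' (add_right_cancel (a2.trans b2.symm)))
  rw [sum_congr rfl fun x _ => e1 x,
    mom_sum P fun u => ∑ s ∈ range S, ∑ s' ∈ range S, f u s * f u s', sum_comm]
  have row : ∀ s ∈ range S, ∑ u : ZMod P, ∑ s' ∈ range S, f u s * f u s' ≤
      (V : ℝ) * P + S * (10 * V * √(P : ℝ)) := fun s _ => by
    rw [sum_comm]
    refine (sum_le_sum fun s' _ => key s s').trans ?_
    rw [sum_add_distrib, sum_const, card_range, nsmul_eq_mul, ← sum_filter, sum_const, nsmul_eq_mul]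
    have h1 : (#((range S).filter fun s' : ℕ =>
      ∃ w ∈ W, (Z : ZMod P) * (s' : ℕ) + (w : ℕ) = Z * s + w₀) : ℝ) ≤ V := by
      exact_mod_cast cnt s
    have h3 := mul_le_mul_of_nonneg_right h1 (Nat.cast_nonneg (α := ℝ) P)
    linarith
  refine (sum_le_sum row).trans (le_of_eq ?_)
  rw [sum_const, card_range, nsmul_eq_mul]
  ring

end Pool.Agent.Z60

end
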