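import Pool.Agent.MP_a4a062_nt.Z60.Defs

/-! h60z row TAU. -/

set_option autoImplicit false

open Finset Filter
open scoped Classical BigOperators

noncomputable section
namespace Pool.Agent.Z60

theorem tau_set {l : ℕ} {B : Fin l → Finset ℕ} (hB : Pr B) (u : ℕ) :
    {Q ∈ tup B | ∏ j, Q j ∣ u} = Fintype.piFinset fun j => {p ∈ B j | p ∣ u} := by
  ext P
  simp only [mem_filter, tup, Fintype.mem_piFinset]
  constructor
  · rintro ⟨h, d⟩ i
    exact ⟨h i, (dvd_prod_of_mem P (mem_univ i)).trans d⟩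
  · intro h
    refine ⟨fun i => (h i).1, Fintype.prod_dvd_of_isRelPrime (fun i j ij => ?_) fun i => (h i).2⟩
    refine Nat.coprime_iff_isRelPrime.1 ((Nat.coprime_primes (hB.2.1 i _ (h i).1)
      (hB.2.1 j _ (h j).1)).2 fun e => ij (hB.2.2 i j _ (h i).1 ?_))
    rw [e]
    exact (h j).1

theorem tau_ins {l : ℕ} {B : Fin l → Finset ℕ} (hB : Pr B) {Q : Fin l → ℕ} (hQ : Q ∈ tup B)
    (f : ℕ) (i : Fin l) :
    {p ∈ B i | p ∣ (∏ j, Q j) * f} = insert (Q i) {p ∈ B i | p ∣ f} := by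
  have h := Fintype.mem_piFinset.1 hQ
  ext p
  simp only [mem_filter, mem_insert]
  constructor
  · rintro ⟨hp, d⟩
    have pp := hB.2.1 i p hp
    rcases pp.prime.dvd_or_dvd d with d | d
    · obtain ⟨j, -, d⟩ := (pp.prime.dvd_finsetProd_iff _).1 d
      have e := (Nat.prime_dvd_prime_iff_eq pp (hB.2.1 j _ (h j))).1 d
      have ij : i = j := hB.2.2 i j p hp (by rw [e]; exact h j)
      rw [ij]
      exact Or.inl e
    · exact Or.inr ⟨hp, d⟩
  · rintro (rfl | ⟨hp, d⟩)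
    · exact ⟨h i, (dvd_prod_of_mem Q (mem_univ i)).mul_right f⟩
    · exact ⟨hp, d.mul_left _⟩

theorem tau_row : TAU_s := by
  intro l B κ δ f hB hN hκ Q hQ
  have h := Fintype.mem_piFinset.1 hQ
  have e : tau B ((∏ j, Q j) * f) = ∏ i, #(insert (Q i) {p ∈ B i | p ∣ f}) := by
    rw [tau, tau_set hB, Fintype.card_piFinset]
    exact prod_congr rfl fun i _ => by rw [tau_ins hB hQ]
  refine ⟨?_, fun h1 h2 h3 => ?_⟩
  · rw [e, om, ← prod_pow_eq_pow_sum]
    exact prod_le_prod' fun i _ => (card_insert_le _ _).trans Nat.lt_two_pow_self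
  · have e2 : tau2 B (∏ j, Q j) ((∏ j, Q j) * f) = tau B ((∏ j, Q j) * f) := by
      unfold tau2 tau
      congr 1
      refine filter_congr fun P hP => ⟨fun x => x.1, fun d => ⟨d, ?_⟩⟩
      have hm : P ∈ {Q' ∈ tup B | ∏ j, Q' j ∣ (∏ j, Q j) * f} := mem_filter.2 ⟨hP, d⟩
      rw [tau_set hB, Fintype.mem_piFinset] at hm
      have k1 : (1 : ℝ) ≤ 1 + κ := by linarith
      have one : ∀ i, (Q i : ℝ) ≤ (1 + κ) ^ #{p ∈ B i | p ∣ f} * P i := fun i => by
        have m := hm i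
        rw [tau_ins hB hQ, mem_insert] at m
        rcases m with m | m
        · rw [m]
          exact le_mul_of_one_le_left (Nat.cast_nonneg _) (one_le_pow₀ k1)
        · refine (hN.1 i _ (h i) _ (mem_filter.1 m).1).trans ?_
          exact mul_le_mul_of_nonneg_right (le_self_pow₀ k1 (card_pos.2 ⟨_, m⟩).ne')
            (Nat.cast_nonneg _)
      have all : ∏ i, (Q i : ℝ) ≤ ∏ i, ((1 + κ) ^ #{p ∈ B i | p ∣ f} * (P i : ℝ)) :=
        prod_le_prod (fun i _ => Nat.cast_nonneg _) fun i _ => one i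
      rw [prod_mul_distrib, prod_pow_eq_pow_sum] at all
      have fin : ∏ i, (Q i : ℝ) ≤ 2 * ∏ i, (P i : ℝ) :=
        all.trans (mul_le_mul_of_nonneg_right h3 (prod_nonneg fun i _ => Nat.cast_nonneg _))
      exact_mod_cast fin
    rw [e2, e, om, ← prod_pow_eq_pow_sum]
    refine prod_le_prod' fun i _ => ?_
    have hn : Q i ∉ {p ∈ B i | p ∣ f} := fun x => h1 i (mem_filter.1 x).2
    rw [card_insert_of_notMem hn]
    have := h2 i
    generalize #{p ∈ B i | p ∣ f} = m at this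
    interval_cases m <;> simp

end Pool.Agent.Z60

end
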