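import Pool.Agent.MP_a4a062_nt.Z60.Defs

/-! h60z row TYP. -/

set_option autoImplicit false

open Finset Filter
open scoped Classical BigOperators

noncomputable section
namespace Pool.Agent.Z60

theorem typ_sq {l : ℕ} (B : Fin l → Finset ℕ) (hB : Pr B) :
    ∑ p ∈ prI B, 1 / (p : ℝ) ^ 2 ≤ ∑ j, (∑ p ∈ B j, 1 / (p : ℝ)) ^ 2 := by
  rw [prI, Finset.sum_biUnion]
  · refine Finset.sum_le_sum fun j _ => ?_
    rw [sq (∑ p ∈ B j, 1 / (p : ℝ)), Finset.sum_mul]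
    refine Finset.sum_le_sum fun p hp => ?_
    rw [sq, ← one_div_mul_one_div]
    exact mul_le_mul_of_nonneg_left
      (Finset.single_le_sum (f := fun p : ℕ => 1 / (p : ℝ)) (fun q _ => by positivity) hp)
      (by positivity)
  · intro i _ j _ hij
    exact Finset.disjoint_left.2 fun p hp hq => hij (hB.2.2 i j p hp hq)

theorem typ_pow (M r : ℕ) (hr : r ≤ M) : (1 + 1 / (2 * (M : ℝ) + 2)) ^ r ≤ 2 := by
  have hM : (0 : ℝ) ≤ M := Nat.cast_nonneg _
  have hr' : (r : ℝ) ≤ M := by exact_mod_cast hr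
  have h1 : 1 + 1 / (2 * (M : ℝ) + 2) ≤ Real.exp (1 / (2 * (M : ℝ) + 2)) := by
    linarith [Real.add_one_le_exp (1 / (2 * (M : ℝ) + 2))]
  refine (pow_le_pow_left₀ (by positivity) h1 r).trans ?_
  rw [← Real.exp_nat_mul]
  have h2 : (r : ℝ) * (1 / (2 * (M : ℝ) + 2)) ≤ 1 / 2 := by
    rw [mul_one_div, div_le_iff₀ (by positivity)]
    linarith
  refine (Real.exp_le_exp.2 h2).trans ?_
  have h3 : Real.exp (1 / 2) * Real.exp (1 / 2) = Real.exp 1 := by
    rw [← Real.exp_add]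
    norm_num
  have h4 := Real.exp_one_lt_d9
  have h5 := Real.exp_pos (1 / 2)
  nlinarith

theorem typ_row (hB : BLK_s) (hT : TAU_s) (hV : VAR_s) (hD : BAD_s) : TYP_s := by
  intro K R η δ hη hδ
  have hK : (0 : ℝ) ≤ K := Nat.cast_nonneg _
  have hR : (0 : ℝ) ≤ R := Nat.cast_nonneg _
  obtain ⟨t, ht⟩ := exists_nat_ge (4 * ((2 * (K : ℝ) + 1) * (R + 2) + 1) / η + 1)
  have a0 : 0 < 4 * ((2 * (K : ℝ) + 1) * (R + 2) + 1) / η := by positivity
  have t1 : (1 : ℝ) ≤ t := by linarith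
  have t2 : 4 * ((2 * (K : ℝ) + 1) * (R + 2) + 1) ≤ t * η := by
    rw [← div_le_iff₀ hη]
    linarith
  obtain ⟨m, hm⟩ : ∃ m : ℕ, m = 2 * (t + R + 1) := ⟨_, rfl⟩
  have hm' : (m : ℝ) = 2 * (t + R + 1) := by rw [hm]; push_cast; ring
  obtain ⟨L, hL⟩ : ∃ L : ℝ, L = (2 * (K : ℝ) + 1) * (t + R + 1) := ⟨_, rfl⟩
  have hL0 : 0 ≤ L := by rw [hL]; positivity
  have hLt : L + 1 ≤ η / 4 * (t : ℝ) ^ 2 := by
    have h1 : L + 1 ≤ ((2 * (K : ℝ) + 1) * (R + 2) + 1) * t := by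
      rw [hL]
      have : 0 ≤ (2 * (K : ℝ) + 1) * ((R + 1) * (t - 1)) :=
        mul_nonneg (by positivity) (mul_nonneg (by positivity) (by linarith))
      nlinarith
    nlinarith [mul_le_mul_of_nonneg_right t2 (by linarith : (0 : ℝ) ≤ t)]
  obtain ⟨l, B, hPr, hNar, l1, l2⟩ := hB L (1 / (2 * (((K + 1) * m : ℕ) : ℝ) + 2)) (min δ (η / 8))
    hL0 (by positivity) (lt_min hδ (by positivity))
  refine ⟨l, B, m, hPr, (typ_sq B hPr).trans (hNar.2.1.trans (min_le_left _ _)), ?_⟩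
  obtain ⟨N0, hN0⟩ := exists_nat_ge (8 * (#(prI B) : ℝ) ^ 2 / η)
  refine (eventually_ge_atTop N0).mono fun N hN c Q hQ => ?_
  have hN' : (N0 : ℝ) ≤ N := by exact_mod_cast hN
  have hW : 8 * (#(prI B) : ℝ) ^ 2 ≤ N * η := by
    rw [← div_le_iff₀ hη]
    linarith
  have hpt : ∀ n ∈ range N,
      (if ¬ (2 ^ (K * m + R) ≤ tau2 B (∏ j, Q j) ((∏ j, Q j) * (n + c)) ∧
        tau B ((∏ j, Q j) * (n + c)) ≤ 2 ^ ((K + 1) * m)) then (1 : ℝ) else 0) ≤
      (if ¬ ((∀ j, ¬ Q j ∣ n + c) ∧ ∀ j, #{p ∈ B j | p ∣ n + c} ≤ 1) then (1 : ℝ) else 0) +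
        ((om B (n + c) : ℝ) - Lam B) ^ 2 / (t : ℝ) ^ 2 := by
    intro n _
    have z0 : 0 ≤ ((om B (n + c) : ℝ) - Lam B) ^ 2 / (t : ℝ) ^ 2 := by positivity
    by_cases hg : (∀ j, ¬ Q j ∣ n + c) ∧ ∀ j, #{p ∈ B j | p ∣ n + c} ≤ 1
    · rw [if_neg (not_not.2 hg), zero_add]
      split_ifs with h
      · exact z0
      · rw [le_div_iff₀ (by positivity), one_mul]
        by_contra hlt
        have habs := abs_lt_of_sq_lt_sq' (not_le.1 hlt) (by linarith)
        apply h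
        have hτ := hT l B _ _ (n + c) hPr hNar (by positivity) Q hQ
        have o1 : K * m + R ≤ om B (n + c) := by
          have : ((K * m + R : ℕ) : ℝ) ≤ om B (n + c) := by
            push_cast
            rw [hm']
            nlinarith [habs.1]
          exact_mod_cast this
        have o2 : om B (n + c) ≤ (K + 1) * m := by
          have : (om B (n + c) : ℝ) ≤ (((K + 1) * m : ℕ) : ℝ) := by
            push_cast
            rw [hm']
            nlinarith [habs.2]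
          exact_mod_cast this
        exact ⟨(Nat.pow_le_pow_right (by norm_num) o1).trans
          (hτ.2 hg.1 hg.2 (typ_pow _ _ o2)), hτ.1.trans (Nat.pow_le_pow_right (by norm_num) o2)⟩
    · rw [if_pos hg]
      split_ifs <;> linarith
  have hs := Finset.sum_le_sum hpt
  rw [Finset.sum_add_distrib, ← Finset.sum_div, Finset.sum_boole, Finset.sum_boole] at hs
  have b1 := hD l B _ _ N c hPr hNar Q hQ
  have b2 := hV l B N c hPr
  have hN0' : (0 : ℝ) ≤ N := Nat.cast_nonneg _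
  have b3 : (∑ n ∈ range N, ((om B (n + c) : ℝ) - Lam B) ^ 2) / (t : ℝ) ^ 2 ≤
      η / 4 * N + 2 * (#(prI B) : ℝ) ^ 2 := by
    rw [div_le_iff₀ (by positivity)]
    have c1 : (N : ℝ) * Lam B ≤ N * (η / 4 * (t : ℝ) ^ 2) :=
      mul_le_mul_of_nonneg_left (l2.trans hLt) hN0'
    have c2 : 2 * (#(prI B) : ℝ) ^ 2 * 1 ≤ 2 * (#(prI B) : ℝ) ^ 2 * (t : ℝ) ^ 2 :=
      mul_le_mul_of_nonneg_left (by nlinarith) (by positivity)
    nlinarith
  have b4 : 2 * min δ (η / 8) * N ≤ 2 * (η / 8) * N :=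
    mul_le_mul_of_nonneg_right (by linarith [min_le_right δ (η / 8)]) hN0'
  linarith

end Pool.Agent.Z60

end
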