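import Pool.Agent.MP_a4a062_nt.Z60.Defs

/-! h60z row VAR. -/

set_option autoImplicit false

open Finset Filter
open scoped Classical BigOperators

noncomputable section
namespace Pool.Agent.Z60

theorem var_sum {l : ℕ} (B : Fin l → Finset ℕ) (hB : Pr B) (F : ℕ → ℝ) :
    ∑ j, ∑ p ∈ B j, F p = ∑ p ∈ prI B, F p := by
  rw [prI, Finset.sum_biUnion]
  intro i _ j _ hij
  exact Finset.disjoint_left.2 fun p hp hq => hij (hB.2.2 i j p hp hq)

theorem var_prime {l : ℕ} (B : Fin l → Finset ℕ) (hB : Pr B) {p : ℕ} (hp : p ∈ prI B) :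
    p.Prime := by
  obtain ⟨j, _, hj⟩ := Finset.mem_biUnion.1 hp
  exact hB.2.1 j p hj

theorem var_cnt (hC : CNT_s) (N c d : ℕ) (hd : 0 < d) :
    |∑ n ∈ range N, (if d ∣ n + c then (1 : ℝ) else 0) - N / d| ≤ 1 := by
  have h := hC N c d hd
  rw [Finset.card_filter, Nat.cast_sum] at h
  have e : ∀ n ∈ range N, ((if d ∣ n + c then 1 else 0 : ℕ) : ℝ) =
      if d ∣ n + c then (1 : ℝ) else 0 := fun n _ => by split_ifs <;> simp
  rw [Finset.sum_congr rfl e] at h
  exact h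

theorem var_pair (hC : CNT_s) (N c : ℕ) {p q : ℕ} (hp : p.Prime) (hq : q.Prime) :
    ∑ n ∈ range N, ((if p ∣ n + c then (1 : ℝ) else 0) - 1 / p) *
      ((if q ∣ n + c then (1 : ℝ) else 0) - 1 / q) ≤ (if p = q then (N : ℝ) * (1 / p) else 0) + 2 := by
  have p2 : (2 : ℝ) ≤ p := by exact_mod_cast hp.two_le
  have q2 : (2 : ℝ) ≤ q := by exact_mod_cast hq.two_le
  have a1 := abs_le.1 (var_cnt hC N c p hp.pos)
  have a2 := abs_le.1 (var_cnt hC N c q hq.pos)
  have ip : (1 : ℝ) / p ≤ 1 / 2 := one_div_le_one_div_of_le (by norm_num) p2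
  have iq : (1 : ℝ) / q ≤ 1 / 2 := one_div_le_one_div_of_le (by norm_num) q2
  have ip0 : (0 : ℝ) ≤ 1 / p := by positivity
  have iq0 : (0 : ℝ) ≤ 1 / q := by positivity
  have e : ∀ n ∈ range N, ((if p ∣ n + c then (1 : ℝ) else 0) - 1 / p) *
      ((if q ∣ n + c then (1 : ℝ) else 0) - 1 / q) =
      (if p ∣ n + c then (1 : ℝ) else 0) * (if q ∣ n + c then (1 : ℝ) else 0) -
        1 / q * (if p ∣ n + c then (1 : ℝ) else 0) - 1 / p * (if q ∣ n + c then (1 : ℝ) else 0) +
        1 / p * (1 / q) := fun n _ => by ring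
  rw [Finset.sum_congr rfl e, Finset.sum_add_distrib, Finset.sum_sub_distrib,
    Finset.sum_sub_distrib, ← Finset.mul_sum, ← Finset.mul_sum, Finset.sum_const, card_range,
    nsmul_eq_mul]
  rw [div_eq_mul_one_div (N : ℝ)] at a1 a2
  have b1 := mul_le_mul_of_nonneg_left a1.1 iq0
  have b2 := mul_le_mul_of_nonneg_left a2.1 ip0
  have hN : (0 : ℝ) ≤ N * (1 / p * (1 / q)) := by positivity
  by_cases h : p = q
  · rw [if_pos h]
    have e2 : ∀ n ∈ range N, (if p ∣ n + c then (1 : ℝ) else 0) *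
        (if q ∣ n + c then (1 : ℝ) else 0) = (if p ∣ n + c then (1 : ℝ) else 0) := fun n _ => by
      rw [← h]
      split_ifs <;> simp
    rw [Finset.sum_congr rfl e2]
    nlinarith [a1.2]
  · rw [if_neg h]
    have hc : Nat.Coprime p q := (Nat.coprime_primes hp hq).2 h
    have e2 : ∀ n ∈ range N, (if p ∣ n + c then (1 : ℝ) else 0) *
        (if q ∣ n + c then (1 : ℝ) else 0) = (if p * q ∣ n + c then (1 : ℝ) else 0) := fun n _ => by
      by_cases h1 : p ∣ n + c
      · by_cases h3 : q ∣ n + c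
        · rw [if_pos h1, if_pos h3, if_pos (hc.mul_dvd_of_dvd_of_dvd h1 h3), one_mul]
        · rw [if_neg h3, if_neg fun h => h3 (dvd_of_mul_left_dvd h), mul_zero]
      · rw [if_neg h1, if_neg fun h => h1 (dvd_of_mul_right_dvd h), zero_mul]
    rw [Finset.sum_congr rfl e2]
    have a3 := (abs_le.1 (var_cnt hC N c (p * q) (Nat.mul_pos hp.pos hq.pos))).2
    have e3 : (N : ℝ) / ((p * q : ℕ) : ℝ) = N * (1 / p * (1 / q)) := by
      push_cast
      field_simp
    rw [e3] at a3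
    nlinarith

theorem var_row (hC : CNT_s) : VAR_s := by
  intro l B N c hB
  have hL : Lam B = ∑ p ∈ prI B, 1 / (p : ℝ) := var_sum B hB _
  have hO : ∀ n ∈ range N, ((om B (n + c) : ℝ) - Lam B) ^ 2 =
      ∑ p ∈ prI B, ∑ q ∈ prI B, ((if p ∣ n + c then (1 : ℝ) else 0) - 1 / p) *
        ((if q ∣ n + c then (1 : ℝ) else 0) - 1 / q) := by
    intro n _
    have h1 : (om B (n + c) : ℝ) = ∑ p ∈ prI B, (if p ∣ n + c then (1 : ℝ) else 0) := by
      rw [← var_sum B hB, om, Nat.cast_sum]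
      refine Finset.sum_congr rfl fun j _ => ?_
      rw [Finset.card_filter, Nat.cast_sum]
      refine Finset.sum_congr rfl fun Q _ => ?_
      split_ifs <;> simp
    rw [h1, hL, ← Finset.sum_sub_distrib, sq, Finset.sum_mul_sum]
  rw [Finset.sum_congr rfl hO, Finset.sum_comm]
  have h2 : ∀ p ∈ prI B, ∑ n ∈ range N, ∑ q ∈ prI B,
      ((if p ∣ n + c then (1 : ℝ) else 0) - 1 / p) * ((if q ∣ n + c then (1 : ℝ) else 0) - 1 / q) ≤
      N * (1 / p) + 2 * (#(prI B) : ℝ) := by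
    intro p hp
    rw [Finset.sum_comm]
    refine (Finset.sum_le_sum fun q hq =>
      var_pair hC N c (var_prime B hB hp) (var_prime B hB hq)).trans ?_
    rw [Finset.sum_add_distrib, Finset.sum_ite_eq, if_pos hp, Finset.sum_const, nsmul_eq_mul]
    linarith
  refine (Finset.sum_le_sum h2).trans ?_
  rw [Finset.sum_add_distrib, ← Finset.mul_sum, ← hL, Finset.sum_const, nsmul_eq_mul]
  nlinarith

end Pool.Agent.Z60

end
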