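import Pool.Agent.MP_a4a062_nt.Z60.BLK
import Pool.Agent.MP_a4a062_nt.Z60.CNT
import Pool.Agent.MP_a4a062_nt.Z60.VAR
import Pool.Agent.MP_a4a062_nt.Z60.BAD
import Pool.Agent.MP_a4a062_nt.Z60.TAU
import Pool.Agent.MP_a4a062_nt.Z60.TYP
import Pool.Agent.MP_a4a062_nt.Z60.LOC
import Pool.Agent.MP_a4a062_nt.Z60.AVG
import Pool.Agent.MP_a4a062_nt.Z60.GEN
import Pool.Agent.MP_a4a062_nt.Z60.MOM
import Pool.Agent.MP_a4a062_nt.Z60.IND
import Pool.Agent.MP_a4a062_nt.Z60.ELL
import Pool.Agent.MP_a4a062_nt.Z60.TOP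

/-! h60z: all rows together. -/

set_option autoImplicit false

namespace Pool.Agent.Z60

theorem gen_all : GEN_s :=
  gen_row (typ_row blk_row tau_row (var_row cnt_row) (bad_row cnt_row))
    (avg_row (loc_row cnt_row (K60.abs_row K60.col_row K60.exp_row)))

theorem top_all : TOP_s := top_row (ell_row cnt_row gen_all (ind_row mom_row) dec_row)

end Pool.Agent.Z60
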