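import Pool.Agent.MP_a4a062_nt.Z60.Defs

/-! h60z row TOP. -/

set_option autoImplicit false

open Finset Filter
open scoped Classical BigOperators

noncomputable section
namespace Pool.Agent.Z60

theorem top_row (hE : ELL_s) : TOP_s := by
  intro K M h₀ h ε hh hM hε
  obtain ⟨P₀, C, H⟩ := hE (Option (Fin K)) (fun i => i.elim (h₀ + 2) fun j => h j + 1) (h₀ + 1) M ε
    (fun i => by
      cases i with
      | none => simp
      | some j => simpa using hh j)
    (fun i => by cases i <;> simp) hM hε
  refine ⟨P₀, C, fun P _ hP N hN ψ g h1 h2 h3 h4 => ?_⟩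
  have := H P hP N hN (fun n => ψ (n + 1)) (fun i => i.elim (fun _ => 1) g) (fun n => h1 _)
    (fun n => by rw [add_right_comm, h2]) (fun i n => by
      cases i with
      | none => simp
      | some j => exact h3 j n)
    (fun i u v hu hv huv => by
      cases i with
      | none => simp
      | some j => exact h4 j u v hu hv huv)
  refine le_trans (le_of_eq (congrArg _ ?_)) this
  rw [show Icc 1 N = Ico 1 (N + 1) from rfl, Finset.sum_Ico_eq_sum_range, Nat.add_sub_cancel]
  refine sum_congr rfl fun n _ => ?_
  rw [Fintype.prod_option]
  simp only [Option.elim_none, Option.elim_some, one_mul]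
  rw [add_comm 1 n, show n + 1 + h₀ = n + (h₀ + 1) by ring]
  refine congrArg _ (prod_congr rfl fun i _ => congrArg _ (by ring))

end Pool.Agent.Z60

end
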